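import Pool.Agent.Lib.EMU.D.Basic

/-!
# MP_9aab3b_gt, module D.Lin: linear changes of coordinates

PROOF. `deg_comp_left`: choose `q` with `RegApprox V g q` and `‖q - g‖ < ε` on `closure V` where `ε` is so small that
`‖A (q x - g x)‖ ≤ ‖A‖ ε < ‖A (g x)‖` on the (compact) frontier. `A ∘ q` is a regular approximation of `A ∘ g`: its derivative is
`A ∘ D q`, so `jac (A ∘ q) x = det A * jac q x`, the zeros are the same, and `sign (det A * j) = sign (det A) * sign j`
(`sign_mul`). Both degrees by `deg_eq_cnt`; `cnt V (A ∘ q) = sign (det A) * cnt V q` by `mul_finsum_mem` / `smul_finsum`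
(finite support by `finite_zeros`).
`deg_comp_right`: `RegApprox (B ⁻¹' V) (g ∘ B) (q ∘ B)` when `RegApprox V g q` (`frontier (B ⁻¹' V) = B ⁻¹' frontier V`,
`ContinuousLinearEquiv.toHomeomorph`, `Homeomorph.preimage_frontier`), `jac (q ∘ B) x = jac q (B x) * det B`; the zeros of
`q ∘ B` in `B ⁻¹' V` correspond to those of `q` in `V` by the bijection `B` (`finsum_mem_image`/`finsum_mem_eq_of_bijOn`).
-/

set_option autoImplicit false

open Set Metric MeasureTheory Topology

namespace EMU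

variable {X : Type*} [NormedAddCommGroup X] [NormedSpace ℝ X] [FiniteDimensional ℝ X] [Nontrivial X]

omit [FiniteDimensional ℝ X] [Nontrivial X] in
private theorem lin_det (A B : X →L[ℝ] X) : (A.comp B).det = A.det * B.det :=
  LinearMap.det_comp (A : X →ₗ[ℝ] X) (B : X →ₗ[ℝ] X)

omit [FiniteDimensional ℝ X] [Nontrivial X] in
private theorem lin_det_ne (A : X ≃L[ℝ] X) : (A : X →L[ℝ] X).det ≠ 0 := by
  intro h
  have h1 := lin_det (A : X →L[ℝ] X) (A.symm : X →L[ℝ] X)
  rw [h, zero_mul] at h1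
  have h2 : (A : X →L[ℝ] X).comp (A.symm : X →L[ℝ] X) = ContinuousLinearMap.id ℝ X := by
    ext x
    exact A.apply_symm_apply x
  rw [h2] at h1
  have h3 : (ContinuousLinearMap.id ℝ X).det = 1 := LinearMap.det_id
  rw [h3] at h1
  exact one_ne_zero h1

omit [FiniteDimensional ℝ X] [Nontrivial X] in
private theorem lin_jac_left (A : X ≃L[ℝ] X) (q : X → X) (x : X) :
    jac (fun x => A (q x)) x = (A : X →L[ℝ] X).det * jac q x := by
  unfold jac
  have h := A.comp_fderiv (f := q) (x := x)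
  have h1 : fderiv ℝ (fun x => A (q x)) x = (A : X →L[ℝ] X).comp (fderiv ℝ q x) := h
  rw [h1, lin_det]

omit [FiniteDimensional ℝ X] [Nontrivial X] in
private theorem lin_jac_right (B : X ≃L[ℝ] X) (q : X → X) (x : X) :
    jac (fun x => q (B x)) x = jac q (B x) * (B : X →L[ℝ] X).det := by
  unfold jac
  have h := B.comp_right_fderiv (f := q) (x := x)
  have h1 : fderiv ℝ (fun x => q (B x)) x = (fderiv ℝ q (B x)).comp (B : X →L[ℝ] X) := h
  rw [h1, lin_det]

private theorem lin_sign (a b : ℝ) : ((SignType.sign (a * b) : SignType) : ℤ) =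
    ((SignType.sign a : SignType) : ℤ) * ((SignType.sign b : SignType) : ℤ) := by
  rw [sign_mul]
  cases SignType.sign a <;> cases SignType.sign b <;> rfl

omit [Nontrivial X] in
private theorem lin_pos {V : Set X} (hb : Bornology.IsBounded V) {g : X → X}
    (hg : ContinuousOn g (closure V)) (h0 : ∀ x ∈ frontier V, g x ≠ 0) :
    ∃ m : ℝ, 0 < m ∧ ∀ x ∈ frontier V, m ≤ ‖g x‖ := by
  have : ProperSpace X := FiniteDimensional.proper ℝ X
  have hfc : IsCompact (frontier V) :=
    Metric.isCompact_of_isClosed_isBounded isClosed_frontier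
      (hb.closure.subset frontier_subset_closure)
  rcases (frontier V).eq_empty_or_nonempty with h | h
  · exact ⟨1, one_pos, fun x hx => by rw [h] at hx; exact absurd hx (Set.notMem_empty x)⟩
  · obtain ⟨x₀, hx₀, hmin⟩ := hfc.exists_isMinOn h ((hg.mono frontier_subset_closure).norm)
    exact ⟨‖g x₀‖, norm_pos_iff.2 (h0 x₀ hx₀), fun x hx => hmin hx⟩

theorem deg_comp_left {V : Set X} (hV : IsOpen V) (hb : Bornology.IsBounded V) {g : X → X}
    (hg : ContinuousOn g (closure V)) (h0 : ∀ x ∈ frontier V, g x ≠ 0) (A : X ≃L[ℝ] X) :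
    deg V (fun x => A (g x)) =
      ((SignType.sign (A : X →L[ℝ] X).det : SignType) : ℤ) * deg V g := by
  have hAg : ContinuousOn (fun x => A (g x)) (closure V) := A.continuous.comp_continuousOn hg
  obtain ⟨m, hm, hmA⟩ := lin_pos hb hAg
    (fun x hx h => h0 x hx ((map_eq_zero_iff A A.injective).1 h))
  have hN : 0 < ‖(A : X →L[ℝ] X)‖ + 1 := by positivity
  obtain ⟨q, hq, hqg⟩ := exists_regApprox hb hg h0 (div_pos hm hN)
  have hAq : RegApprox V (fun x => A (g x)) (fun x => A (q x)) := by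
    refine ⟨A.contDiff.comp hq.smooth, fun x hx => ?_, fun x hx hx0 => ?_⟩
    · have h1 := hqg x (frontier_subset_closure hx)
      rw [lt_div_iff₀ hN] at h1
      have h2 : ‖A (q x) - A (g x)‖ ≤ ‖(A : X →L[ℝ] X)‖ * ‖q x - g x‖ := by
        rw [← map_sub]
        exact (A : X →L[ℝ] X).le_opNorm _
      refine lt_of_lt_of_le ?_ (hmA x hx)
      have h3 := norm_nonneg (q x - g x)
      nlinarith
    · rw [lin_jac_left]
      exact mul_ne_zero (lin_det_ne A) (hq.reg x hx ((map_eq_zero_iff A A.injective).1 hx0))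
  rw [deg_eq_cnt hV hb hAq, deg_eq_cnt hV hb hq]
  unfold cnt
  have hs : {x | x ∈ V ∧ A (q x) = 0} = {x | x ∈ V ∧ q x = 0} := by
    ext x
    simp only [mem_setOf_eq, map_eq_zero_iff A A.injective]
  rw [hs]
  have hmul := mul_finsum_mem (s := {x | x ∈ V ∧ q x = 0})
    (f := fun x => ((SignType.sign (jac q x) : SignType) : ℤ))
    ((SignType.sign (A : X →L[ℝ] X).det : SignType) : ℤ)
  rw [hmul]
  exact finsum_mem_congr rfl fun x _ => by rw [lin_jac_left, lin_sign]

theorem deg_comp_right {V : Set X} (hV : IsOpen V) (hb : Bornology.IsBounded V) {g : X → X}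
    (hg : ContinuousOn g (closure V)) (h0 : ∀ x ∈ frontier V, g x ≠ 0) (B : X ≃L[ℝ] X) :
    deg (B ⁻¹' V) (fun x => g (B x)) =
      ((SignType.sign (B : X →L[ℝ] X).det : SignType) : ℤ) * deg V g := by
  obtain ⟨q, hq, -⟩ := exists_regApprox hb hg h0 one_pos
  have hfr : frontier (B ⁻¹' V) = B ⁻¹' frontier V :=
    (B.toHomeomorph.preimage_frontier V).symm
  have hVB : IsOpen (B ⁻¹' V) := hV.preimage B.continuous
  have hbB : Bornology.IsBounded (B ⁻¹' V) := by
    have h1 : B ⁻¹' V = (B.symm : X →L[ℝ] X) '' V :=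
      (B.symm.toEquiv.image_eq_preimage_symm V).symm
    rw [h1]
    exact (B.symm : X →L[ℝ] X).lipschitz.isBounded_image hb
  have hqB : RegApprox (B ⁻¹' V) (fun x => g (B x)) (fun x => q (B x)) := by
    refine ⟨hq.smooth.comp B.contDiff, fun x hx => ?_, fun x hx hx0 => ?_⟩
    · rw [hfr] at hx
      exact hq.close _ hx
    · rw [lin_jac_right]
      exact mul_ne_zero (hq.reg _ hx hx0) (lin_det_ne B)
  rw [deg_eq_cnt hVB hbB hqB, deg_eq_cnt hV hb hq]
  unfold cnt
  have hmul := mul_finsum_mem (s := {x | x ∈ V ∧ q x = 0})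
    (f := fun x => ((SignType.sign (jac q x) : SignType) : ℤ))
    ((SignType.sign (B : X →L[ℝ] X).det : SignType) : ℤ)
  rw [hmul]
  refine finsum_mem_eq_of_bijOn B ⟨fun x hx => hx, B.injective.injOn, fun y hy => ?_⟩
    fun x _ => ?_
  · refine ⟨B.symm y, ?_, B.apply_symm_apply y⟩
    show B (B.symm y) ∈ V ∧ q (B (B.symm y)) = 0
    rw [B.apply_symm_apply]
    exact hy
  · rw [lin_jac_right, lin_sign, mul_comm]

end EMU
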