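import Pool.Agent.Lib.EMU.D.Exist

/-!
# MP_9aab3b_gt, module D.Pert: perturbations with finitely many zeros

PROOF of `exists_pert_rel`. Choose an open `W` with `K ⊆ W`, `closure W ⊆ V` compact (`V` is bounded; `exists_compact_between`). The set
`K₁ = K ∩ A₂ \ interior A₁` is compact and `g ≠ 0` on it, so `‖g‖ ≥ m > 0` on `K₁` (`m = 1` if `K₁ = ∅`). Let `θ : X → [0,1]` be continuous,
`θ = 1` on the closed set `K \ interior A₂` (well, on `K ∩ (interior A₂)ᶜ`) and `θ = 0` on the closed set `A₁ ∪ Wᶜ` (Urysohn,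
`exists_continuous_zero_one_of_isClosed`; the sets are disjoint because `A₁ ⊆ interior A₂` and `K ⊆ W`). By `exists_contDiff_close` and
`exists_regular_value` (with `ι = Unit`, `T = refl`, `M = ⊥`) there is a `C^1` map `q` with `‖q x - g x‖ < min ε m` on `closure V` and
`q x = 0 → jac q x ≠ 0` for all `x` (subtract the regular value). Let `d x = θ x • (q x - g x)` for `x ∈ V` and `0` otherwise; it is
continuous (`θ = 0` outside `W`, `closure W ⊆ V`), vanishes on `A₁` and outside the compact set `closure W ⊆ V`, and `‖d x‖ ≤ ε`.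
Zeros of `g + d` in `K \ A₁`: in `K \ interior A₂` they are zeros of `q`, and these are finite in number in the compact set `K` (isolated, since `jac q x ≠ 0`;
see `finite_zeros`' proof: use `HasStrictFDerivAt`/inverse function theorem); in `K₁` there is none because `‖d‖ < m ≤ ‖g‖`. (Points of
`K ∩ interior A₂` are in `K₁` or in `interior A₁ ⊆ A₁`.)
`exists_pert`: the set `{x ∈ closure V | ‖g x‖ ≤ m}` is a compact subset `K` of `V` for a small `m > 0`; apply `exists_pert_rel` with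
`min ε (m / 2)`, `A₁ = A₂ = ∅`: outside `K` there is no zero.
-/

set_option autoImplicit false

open Set Metric MeasureTheory Topology

namespace EMU

variable {X : Type*} [NormedAddCommGroup X] [NormedSpace ℝ X] [FiniteDimensional ℝ X] [Nontrivial X]

omit [Nontrivial X] in
private theorem bound_below {f' : X →L[ℝ] X} (h : f'.det ≠ 0) :
    ∃ C : NNReal, AntilipschitzWith C f' := by
  obtain ⟨e, he⟩ : ∃ e : X ≃L[ℝ] X, (e : X →L[ℝ] X) = f' :=
    ⟨f'.toContinuousLinearEquivOfDetNeZero h, rfl⟩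
  rw [← he]
  exact ⟨_, e.antilipschitz⟩

omit [Nontrivial X] in
private theorem finite_level {K : Set X} (hK : IsCompact K) {q : X → X} (hq : ContDiff ℝ 1 q)
    {c : X} (h : ∀ x, q x = c → jac q x ≠ 0) : {x | x ∈ K ∧ q x = c}.Finite := by
  by_contra hinf
  obtain ⟨x, hx, hacc⟩ := Set.Infinite.exists_accPt_of_subset_isCompact hinf hK
    (fun z hz => hz.1)
  have ev : ∀ᶠ z in 𝓝[≠] x, q z ≠ c := by
    by_cases hxc : q x = c
    · have hd : HasFDerivAt q (fderiv ℝ q x) x :=
        (hq.differentiable one_ne_zero x).hasFDerivAt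
      exact hd.eventually_ne (bound_below (h x hxc))
    · exact (hq.continuous.continuousAt.eventually_ne hxc).filter_mono nhdsWithin_le_nhds
  rw [accPt_iff_frequently_nhdsNE] at hacc
  obtain ⟨z, hz, hz'⟩ := (hacc.and_eventually ev).exists
  exact hz' hz.2

theorem exists_pert_rel {V : Set X} (hV : IsOpen V) (hb : Bornology.IsBounded V) {g : X → X}
    (hg : ContinuousOn g (closure V)) {K A₁ A₂ : Set X} (hK : IsCompact K) (hKV : K ⊆ V)
    (h1 : IsClosed A₁) (h2 : IsClosed A₂) (h12 : A₁ ⊆ interior A₂)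
    (hne : ∀ x ∈ K, x ∈ A₂ → x ∉ interior A₁ → g x ≠ 0) {ε : ℝ} (hε : 0 < ε) :
    ∃ d : X → X, Continuous d ∧ (∃ C, IsCompact C ∧ C ⊆ V ∧ ∀ x, x ∉ C → d x = 0) ∧
      (∀ x ∈ A₁, d x = 0) ∧ (∀ x, ‖d x‖ ≤ ε) ∧ {x | x ∈ K ∧ x ∉ A₁ ∧ g x + d x = 0}.Finite := by
  classical
  have hprop : ProperSpace X := FiniteDimensional.proper_real X
  obtain ⟨L, hL, hKL, hLV⟩ := exists_compact_between hK hV hKV
  have hK1 : IsCompact (K ∩ (A₂ ∩ (interior A₁)ᶜ)) :=
    hK.inter_right (h2.inter isOpen_interior.isClosed_compl)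
  obtain ⟨m, hm0, hm⟩ := hK1.exists_forall_le' (f := fun x => ‖g x‖) (a := 0)
    ((hg.norm).mono fun x hx => subset_closure (hKV hx.1))
    (fun x hx => norm_pos_iff.2 (hne x hx.1 hx.2.1 hx.2.2))
  obtain ⟨θ, hθ0, hθ1, hθ⟩ := exists_continuous_zero_one_of_isClosed
    (s := A₁ ∪ (interior L)ᶜ) (t := K ∩ (interior A₂)ᶜ)
    (h1.union isOpen_interior.isClosed_compl)
    (hK.isClosed.inter isOpen_interior.isClosed_compl) (by
      rw [Set.disjoint_left]
      rintro x (hx | hx) ⟨hx1, hx2⟩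
      · exact hx2 (h12 hx)
      · exact hx (hKL hx1))
  obtain ⟨μ, hμ0, hμε, hμm⟩ : ∃ μ : ℝ, 0 < μ ∧ μ ≤ ε ∧ μ ≤ m :=
    ⟨min ε m, lt_min hε hm0, min_le_left _ _, min_le_right _ _⟩
  obtain ⟨q, hq, hqg⟩ := exists_contDiff_close hg (half_pos hμ0)
  obtain ⟨c, hc, -, hreg⟩ := exists_regular_value (ι := Unit)
    (fun _ => ContinuousLinearEquiv.refl ℝ X) hq (M := ⊥) bot_ne_top (half_pos hμ0)
  have hreg' : ∀ x, q x = c → jac q x ≠ 0 := fun x hx => hreg () x hx
  obtain ⟨d, hd⟩ : ∃ d : X → X, d = fun x => if x ∈ V then θ x • (q x - c - g x) else 0 :=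
    ⟨_, rfl⟩
  have hdV : ∀ x, x ∈ V → d x = θ x • (q x - c - g x) := by
    intro x hx
    rw [hd]
    exact if_pos hx
  have hdL : ∀ x, x ∉ interior L → d x = 0 := by
    intro x hx
    have h3 : θ x = 0 := hθ0 (Or.inr hx)
    rw [hd]
    simp only [h3, zero_smul, ite_self]
  have hlt : ∀ x ∈ V, ‖q x - c - g x‖ < μ := by
    intro x hx
    have h3 := hqg x (subset_closure hx)
    have h4 : q x - c - g x = (q x - g x) - c := by abel
    rw [h4]
    have h5 := norm_sub_le (q x - g x) c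
    linarith
  have hdn : ∀ x ∈ V, ‖d x‖ < μ := by
    intro x hx
    rw [hdV x hx, norm_smul, Real.norm_eq_abs, abs_of_nonneg (hθ x).1]
    calc θ x * ‖q x - c - g x‖ ≤ 1 * ‖q x - c - g x‖ :=
          mul_le_mul_of_nonneg_right (hθ x).2 (norm_nonneg _)
      _ < μ := by rw [one_mul]; exact hlt x hx
  refine ⟨d, ?_, ⟨L, hL, hLV, fun x hx => hdL x fun h => hx (interior_subset h)⟩, ?_, ?_, ?_⟩
  · rw [continuous_iff_continuousAt]
    intro x
    by_cases hx : x ∈ V
    · have h3 : ContinuousOn (fun x => θ x • (q x - c - g x)) V :=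
        θ.continuous.continuousOn.smul
          ((hq.continuous.continuousOn.sub continuousOn_const).sub (hg.mono subset_closure))
      refine (h3.continuousAt (hV.mem_nhds hx)).congr ?_
      filter_upwards [hV.mem_nhds hx] with z hz
      exact (hdV z hz).symm
    · have hx' : x ∈ Lᶜ := fun h => hx (hLV h)
      refine (continuousAt_const (y := (0 : X))).congr ?_
      filter_upwards [hL.isClosed.isOpen_compl.mem_nhds hx'] with z hz
      exact (hdL z fun h => hz (interior_subset h)).symm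
  · intro x hx
    have h3 : θ x = 0 := hθ0 (Or.inl hx)
    rw [hd]
    simp only [h3, zero_smul, ite_self]
  · intro x
    by_cases hx : x ∈ V
    · exact (hdn x hx).le.trans hμε
    · rw [hdL x fun h => hx (hLV (interior_subset h)), norm_zero]
      exact hε.le
  · refine (finite_level hK hq hreg').subset ?_
    rintro x ⟨hx1, hx2, hx3⟩
    refine ⟨hx1, ?_⟩
    by_cases hx4 : x ∈ interior A₂
    · exfalso
      have h5 := hm x ⟨hx1, interior_subset hx4, fun h => hx2 (interior_subset h)⟩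
      have h6 := hdn x (hKV hx1)
      have h7 : g x = - d x := eq_neg_of_add_eq_zero_left hx3
      simp only [h7, norm_neg] at h5
      linarith
    · have h5 : θ x = 1 := hθ1 ⟨hx1, hx4⟩
      rw [hdV x (hKV hx1), h5, one_smul] at hx3
      have h6 : q x - c = 0 := by
        rw [← hx3]
        abel
      exact sub_eq_zero.1 h6

theorem exists_pert {V : Set X} (hV : IsOpen V) (hb : Bornology.IsBounded V) {g : X → X}
    (hg : ContinuousOn g (closure V)) (h0 : ∀ x ∈ frontier V, g x ≠ 0) {ε : ℝ} (hε : 0 < ε) :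
    ∃ d : X → X, Continuous d ∧ (∃ C, IsCompact C ∧ C ⊆ V ∧ ∀ x, x ∉ C → d x = 0) ∧
      (∀ x, ‖d x‖ ≤ ε) ∧ {x | x ∈ closure V ∧ g x + d x = 0}.Finite := by
  have hprop : ProperSpace X := FiniteDimensional.proper_real X
  have hcl : IsCompact (closure V) := hb.isCompact_closure
  have hfr : IsCompact (frontier V) := hcl.of_isClosed_subset isClosed_frontier
    frontier_subset_closure
  obtain ⟨m, hm0, hm⟩ := hfr.exists_forall_le' (f := fun x => ‖g x‖) (a := 0)
    ((hg.norm).mono frontier_subset_closure) (fun x hx => norm_pos_iff.2 (h0 x hx))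
  have hKc : IsCompact (closure V ∩ (fun x => ‖g x‖) ⁻¹' Set.Iic (m / 2)) :=
    hcl.of_isClosed_subset (hg.norm.preimage_isClosed_of_isClosed isClosed_closure isClosed_Iic)
      Set.inter_subset_left
  have hKV : closure V ∩ (fun x => ‖g x‖) ⁻¹' Set.Iic (m / 2) ⊆ V := by
    rintro x ⟨hx1, hx2⟩
    by_contra hx
    have h3 : x ∈ frontier V := by
      rw [hV.frontier_eq]
      exact ⟨hx1, hx⟩
    have h4 : m ≤ ‖g x‖ := hm x h3
    have h5 : ‖g x‖ ≤ m / 2 := hx2
    linarith
  obtain ⟨d, hd1, hd2, -, hd4, hd5⟩ := exists_pert_rel hV hb hg hKc hKV (A₁ := ∅) (A₂ := ∅)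
    isClosed_empty isClosed_empty (Set.empty_subset _) (fun x _ h => absurd h (Set.notMem_empty x))
    (lt_min hε (half_pos hm0))
  refine ⟨d, hd1, hd2, fun x => (hd4 x).trans (min_le_left _ _), hd5.subset ?_⟩
  rintro x ⟨hx1, hx2⟩
  refine ⟨⟨hx1, ?_⟩, Set.notMem_empty x, hx2⟩
  have h7 : g x = - d x := eq_neg_of_add_eq_zero_left hx2
  change ‖g x‖ ≤ m / 2
  rw [h7, norm_neg]
  exact (hd4 x).trans (min_le_right _ _)

end EMU
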