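import Pool.Agent.Lib.EMU.D.Basic

/-!
# MP_9aab3b_gt, module D.Add: additivity of the degree

PROOF. The set `F = closure V \ ⋃ i ∈ s, U i` is compact and `g ≠ 0` on it, so `‖g‖ ≥ m > 0` on `F` (if `F` is empty, `m = 1`).
Note `frontier V ⊆ F` (the `U i` are contained in the open set `V`) and `frontier (U i) ⊆ F`: a point of the frontier of `U i` is in
`closure V`, not in `U i` (open) and not in another `U j` (open and disjoint from `U i`). Choose (`exists_regApprox`) `q` with
`RegApprox V g q` and `‖q - g‖ < m` on `closure V`. Then `q ≠ 0` on `F`, `RegApprox (U i) g q` for all `i ∈ s`, and the zeros of `q`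
in `V` are the disjoint union of the zeros of `q` in the `U i`, all finite sets (`finite_zeros`). So
`cnt V q = ∑ i ∈ s, cnt (U i) q` (`finsum_mem_biUnion` or `finsum_mem_union`), and `deg_eq_cnt`. (`frontier V ⊆ F` gives the hypothesis
`g ≠ 0` on the frontier.)
-/

set_option autoImplicit false

open Set Metric MeasureTheory Topology

namespace EMU

variable {X : Type*} [NormedAddCommGroup X] [NormedSpace ℝ X] [FiniteDimensional ℝ X] [Nontrivial X]

theorem deg_sum {V : Set X} (hV : IsOpen V) (hb : Bornology.IsBounded V) {g : X → X}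
    (hg : ContinuousOn g (closure V)) {ι : Type*} (s : Finset ι) (U : ι → Set X)
    (hU : ∀ i ∈ s, IsOpen (U i)) (hs : ∀ i ∈ s, U i ⊆ V)
    (hd : ∀ i ∈ s, ∀ j ∈ s, i ≠ j → Disjoint (U i) (U j))
    (hz : ∀ x ∈ closure V, (∀ i ∈ s, x ∉ U i) → g x ≠ 0) :
    deg V g = ∑ i ∈ s, deg (U i) g := by
  classical
  have : ProperSpace X := FiniteDimensional.proper_real X
  obtain ⟨F, hF⟩ : ∃ F : Set X, F = closure V \ ⋃ i ∈ s, U i := ⟨_, rfl⟩
  have hmemF : ∀ x, x ∈ F ↔ x ∈ closure V ∧ ∀ i ∈ s, x ∉ U i := by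
    intro x
    rw [hF]
    simp only [mem_sdiff, mem_iUnion, exists_prop, not_exists, not_and]
  have hFc : IsCompact F := by
    rw [hF]
    exact hb.isCompact_closure.diff (isOpen_biUnion hU)
  have hVF : frontier V ⊆ F := by
    intro x hx
    rw [hmemF]
    refine ⟨frontier_subset_closure hx, fun i hi hxi => ?_⟩
    rw [hV.frontier_eq] at hx
    exact hx.2 (hs i hi hxi)
  have hUF : ∀ i ∈ s, frontier (U i) ⊆ F := by
    intro i hi x hx
    rw [(hU i hi).frontier_eq] at hx
    rw [hmemF]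
    refine ⟨closure_mono (hs i hi) hx.1, fun j hj hxj => ?_⟩
    by_cases hij : i = j
    · subst hij
      exact hx.2 hxj
    · obtain ⟨y, hy1, hy2⟩ := mem_closure_iff.mp hx.1 (U j) (hU j hj) hxj
      exact (Set.disjoint_left.mp (hd i hi j hj hij)) hy2 hy1
  have hFcl : F ⊆ closure V := fun x hx => ((hmemF x).mp hx).1
  obtain ⟨m, hm, hgm⟩ : ∃ m : ℝ, 0 < m ∧ ∀ x ∈ F, m ≤ ‖g x‖ := by
    rcases F.eq_empty_or_nonempty with he | hne
    · exact ⟨1, one_pos, fun x hx => by rw [he] at hx; exact absurd hx (notMem_empty x)⟩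
    · obtain ⟨x0, hx0, hmin⟩ := hFc.exists_isMinOn hne ((hg.mono hFcl).norm)
      refine ⟨‖g x0‖, norm_pos_iff.mpr (hz x0 (hFcl hx0) ((hmemF x0).mp hx0).2), fun x hx => ?_⟩
      exact hmin hx
  obtain ⟨q, hq, hqg⟩ := exists_regApprox hb hg
    (fun x hx => hz x (hFcl (hVF hx)) ((hmemF x).mp (hVF hx)).2) hm
  have hqF : ∀ x ∈ F, q x ≠ 0 := by
    intro x hx h0
    have h1 := hqg x (hFcl hx)
    rw [h0, zero_sub, norm_neg] at h1
    exact absurd (hgm x hx) (not_le.mpr h1)
  have hreg : ∀ i ∈ s, RegApprox (U i) g q := fun i hi =>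
    { smooth := hq.smooth
      close := fun x hx => (hqg x (hFcl (hUF i hi hx))).trans_le (hgm x (hUF i hi hx))
      reg := fun x hx => hq.reg x (hs i hi hx) }
  rw [deg_eq_cnt hV hb hq, Finset.sum_congr rfl fun i hi =>
    deg_eq_cnt (hU i hi) (hb.subset (hs i hi)) (hreg i hi)]
  have hfin : ∀ i ∈ s, {x | x ∈ U i ∧ q x = 0}.Finite := fun i hi =>
    finite_zeros (hU i hi) (hb.subset (hs i hi)) hq.smooth (fun x hx => hqF x (hUF i hi hx))
      (hreg i hi).reg
  have hset : {x | x ∈ V ∧ q x = 0} = ⋃ i ∈ (s : Set ι), {x | x ∈ U i ∧ q x = 0} := by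
    ext x
    simp only [mem_ofPred_eq, mem_iUnion, exists_prop, Finset.mem_coe]
    constructor
    · rintro ⟨hxV, hx0⟩
      by_contra hcon
      push Not at hcon
      exact hqF x ((hmemF x).mpr ⟨subset_closure hxV, fun i hi hxi => hcon i hi hxi hx0⟩) hx0
    · rintro ⟨i, hi, hxi, hx0⟩
      exact ⟨hs i hi hxi, hx0⟩
  unfold cnt
  rw [hset, finsum_mem_biUnion ?_ s.finite_toSet (fun i hi => hfin i hi), finsum_mem_coe_finset]
  intro i hi j hj hij
  refine Set.disjoint_left.mpr fun x hx hy => ?_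
  exact (Set.disjoint_left.mp (hd i hi j hj hij)) hx.1 hy.1

end EMU
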