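import Pool.Agent.Lib.EMU.D.Basic
import Pool.Agent.Lib.EMU.D.Lin

/-!
# MP_9aab3b_gt, module D.Cube: cubing one complex coordinate multiplies the degree by 3

PROOF. Put `c v = Function.update v l (v l ^ 3)` and `G x = e.symm (c (e (g x)))`. `c v = 0 ↔ v = 0`, so `G ≠ 0` on the frontier.
Choose a `C^1` map `q` close to `g` on `closure V` (`exists_contDiff_close`), so close that `‖q - g‖ < ‖g‖ / 2` on the frontier and
`‖e.symm (c (e (q x))) - G x‖ < ‖G x‖ / 2` there (uniform continuity of `e.symm ∘ c ∘ e` on a compact set).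
Let `T j : X ≃L[ℝ] X` (`j : Fin 3`) multiply the coordinate `l` (through `e`) by `ζ^j`, `ζ = exp (2πi/3)`, and `M = {x | e x l = 0}`
(a proper real subspace). `exists_regular_value` gives `c₀` arbitrarily small with `c₀ ∉ M` and `q x = T j c₀ → jac q x ≠ 0`.
Put `Q x = e.symm (c (e (q x)) - c (e c₀))`. For `c₀` small enough `Q` satisfies `close` for `G`. Its zeros in `V` are the `x` with
`c (e (q x)) = c (e c₀)`, i.e. `q x = T j c₀` for one (and only one, since `e c₀ l ≠ 0`) `j : Fin 3`. By the chain rule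
`jac Q x = jac q x * det (D (e.symm ∘ c ∘ e) (q x))` and the last determinant is `‖3 (e (q x) l)^2‖^2 > 0`: the derivative of `c` is complex
linear, diagonal with entries `1` and `3 v_l^2` (`LinearMap.det_restrictScalars`, `Complex` norm, or compute directly with
`LinearMap.det` conjugation invariance `LinearMap.det_conj` and `Complex.det...`; it is enough to know that the real determinant of an
invertible complex linear map is positive). So `RegApprox V G Q`, and
`cnt V Q = ∑ j, cnt V (fun x => q x - T j c₀) = ∑ j, deg V g = 3 * deg V g`, because `q - T j c₀` is a regular approximation of `g` for every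
`j` when `c₀` is small (`deg_eq_cnt`; `finite_zeros`; `finsum_mem_union`).
-/

set_option autoImplicit false

open Set Metric MeasureTheory Topology

namespace EMU

variable {X : Type*} [NormedAddCommGroup X] [NormedSpace ℝ X] [FiniteDimensional ℝ X] [Nontrivial X]

/-- the real determinant of an invertible complex linear map is positive -/
theorem det_real_pos {K : ℕ} (e : X ≃L[ℝ] (Fin K → ℂ)) (A : (Fin K → ℂ) ≃L[ℂ] (Fin K → ℂ)) :
    0 < (((e.trans (A.restrictScalars ℝ)).trans e.symm : X ≃L[ℝ] X) : X →L[ℝ] X).det := by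
  have h1 : (((e.trans (A.restrictScalars ℝ)).trans e.symm : X ≃L[ℝ] X) : X →L[ℝ] X).det =
      LinearMap.det ((A.toLinearEquiv : (Fin K → ℂ) →ₗ[ℂ] (Fin K → ℂ)).restrictScalars ℝ) := by
    rw [← LinearMap.det_conj _ e.toLinearEquiv.symm]
    rfl
  rw [h1, LinearMap.det_restrictScalars, Algebra.norm_complex_apply]
  exact Complex.normSq_pos.2 (LinearEquiv.isUnit_det' A.toLinearEquiv).ne_zero

omit [FiniteDimensional ℝ X] [Nontrivial X] in
private theorem cube_lower {S : Set X} (hS : IsCompact S) {φ : X → ℝ} (hφ : ContinuousOn φ S)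
    (hp : ∀ x ∈ S, 0 < φ x) : ∃ m : ℝ, 0 < m ∧ ∀ x ∈ S, m ≤ φ x := by
  rcases S.eq_empty_or_nonempty with h | h
  · exact ⟨1, one_pos, fun x hx => by rw [h] at hx; exact absurd hx (Set.notMem_empty x)⟩
  · obtain ⟨x₀, hx₀, hmin⟩ := hS.exists_isMinOn h hφ
    exact ⟨φ x₀, hp x₀ hx₀, fun x hx => hmin hx⟩

section Cube

variable {K : ℕ}

/-- multiplication of the coordinate `l` by `u` -/
private noncomputable def cubeM (l : Fin K) (u : ℂˣ) : (Fin K → ℂ) ≃L[ℂ] (Fin K → ℂ) :=
  ContinuousLinearEquiv.piCongrRight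
    (fun i => ContinuousLinearEquiv.unitsEquivAut ℂ (if i = l then u else 1))

private theorem cubeM_apply (l : Fin K) (u : ℂˣ) (v : Fin K → ℂ) (i : Fin K) :
    cubeM l u v i = v i * ((if i = l then u else 1 : ℂˣ) : ℂ) := rfl

/-- the same in `X` -/
private noncomputable def cubeT (e : X ≃L[ℝ] (Fin K → ℂ)) (l : Fin K) (u : ℂˣ) : X ≃L[ℝ] X :=
  (e.trans ((cubeM l u).restrictScalars ℝ)).trans e.symm

private theorem cubeT_apply (e : X ≃L[ℝ] (Fin K → ℂ)) (l : Fin K) (u : ℂˣ) (x : X) :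
    cubeT e l u x = e.symm (cubeM l u (e x)) := rfl

private theorem cubeT_det (e : X ≃L[ℝ] (Fin K → ℂ)) (l : Fin K) (u : ℂˣ) :
    0 < ((cubeT e l u : X ≃L[ℝ] X) : X →L[ℝ] X).det := det_real_pos e (cubeM l u)

private def cubeC (l : Fin K) (v : Fin K → ℂ) : Fin K → ℂ := Function.update v l (v l ^ 3)

private theorem cubeC_apply (l : Fin K) (v : Fin K → ℂ) (i : Fin K) :
    cubeC l v i = if i = l then v l ^ 3 else v i := by
  by_cases h : i = l
  · subst h
    simp [cubeC]
  · simp [cubeC, h]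

private theorem cubeC_deriv (l : Fin K) (v : Fin K → ℂ) (u : ℂˣ) (hu : (u : ℂ) = 3 * v l ^ 2) :
    HasFDerivAt (cubeC l) ((cubeM l u : (Fin K → ℂ) ≃L[ℂ] (Fin K → ℂ)) :
      (Fin K → ℂ) →L[ℂ] (Fin K → ℂ)) v := by
  rw [hasFDerivAt_pi']
  intro i
  by_cases h : i = l
  · subst h
    have h1 : (fun w : Fin K → ℂ => cubeC i w i) = fun w => w i ^ 3 := by
      funext w
      rw [cubeC_apply, if_pos rfl]
    rw [h1]
    have h2 : HasFDerivAt (fun w : Fin K → ℂ => w i ^ 3)
        ((3 * v i ^ 2) • (ContinuousLinearMap.proj (R := ℂ) (φ := fun _ : Fin K => ℂ) i)) v := by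
      have h3 := ((ContinuousLinearMap.proj (R := ℂ) (φ := fun _ : Fin K => ℂ) i).hasFDerivAt
        (x := v)).pow 3
      simpa using h3
    have h4 : (ContinuousLinearMap.proj (R := ℂ) (φ := fun _ : Fin K => ℂ) i).comp
        ((cubeM i u : (Fin K → ℂ) ≃L[ℂ] (Fin K → ℂ)) : (Fin K → ℂ) →L[ℂ] (Fin K → ℂ)) =
        (3 * v i ^ 2) • (ContinuousLinearMap.proj (R := ℂ) (φ := fun _ : Fin K => ℂ) i) := by
      ext w
      simp only [ContinuousLinearMap.comp_apply, ContinuousLinearMap.proj_apply,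
        ContinuousLinearEquiv.coe_coe, cubeM_apply, if_true, ContinuousLinearMap.smul_apply,
        smul_eq_mul, hu]
      ring
    rw [h4]
    exact h2
  · have h1 : (fun w : Fin K → ℂ => cubeC l w i) = fun w => w i := by
      funext w
      rw [cubeC_apply, if_neg h]
    rw [h1]
    have h4 : (ContinuousLinearMap.proj (R := ℂ) (φ := fun _ : Fin K => ℂ) i).comp
        ((cubeM l u : (Fin K → ℂ) ≃L[ℂ] (Fin K → ℂ)) : (Fin K → ℂ) →L[ℂ] (Fin K → ℂ)) =
        (ContinuousLinearMap.proj (R := ℂ) (φ := fun _ : Fin K => ℂ) i) := by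
      ext w
      simp only [ContinuousLinearMap.comp_apply, ContinuousLinearMap.proj_apply,
        ContinuousLinearEquiv.coe_coe, cubeM_apply, if_neg h, Units.val_one, mul_one]
    rw [h4]
    exact (ContinuousLinearMap.proj (R := ℂ) (φ := fun _ : Fin K => ℂ) i).hasFDerivAt

private theorem cubeC_contDiff (l : Fin K) : ContDiff ℝ 1 (cubeC l) := by
  rw [contDiff_pi]
  intro i
  by_cases h : i = l
  · have h1 : (fun w : Fin K → ℂ => cubeC l w i) = fun w => w l ^ 3 := by
      funext w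
      rw [cubeC_apply, if_pos h]
    rw [h1]
    exact (contDiff_apply ℝ ℂ l).pow 3
  · have h1 : (fun w : Fin K → ℂ => cubeC l w i) = fun w => w i := by
      funext w
      rw [cubeC_apply, if_neg h]
    rw [h1]
    exact contDiff_apply ℝ ℂ i

private noncomputable def cubeF (e : X ≃L[ℝ] (Fin K → ℂ)) (l : Fin K) (y : X) : X :=
  e.symm (cubeC l (e y))

private theorem cubeF_contDiff (e : X ≃L[ℝ] (Fin K → ℂ)) (l : Fin K) :
    ContDiff ℝ 1 (cubeF e l) :=
  e.symm.contDiff.comp ((cubeC_contDiff l).comp e.contDiff)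

private theorem cubeF_deriv (e : X ≃L[ℝ] (Fin K → ℂ)) (l : Fin K) (y : X) (u : ℂˣ)
    (hu : (u : ℂ) = 3 * (e y l) ^ 2) :
    HasFDerivAt (cubeF e l) ((cubeT e l u : X ≃L[ℝ] X) : X →L[ℝ] X) y := by
  have h1 := (cubeC_deriv l (e y) u hu).restrictScalars ℝ
  have h2 : HasFDerivAt (fun y => cubeC l (e y)) _ y := h1.comp y e.hasFDerivAt
  exact (e.symm.hasFDerivAt (x := cubeC l (e y))).comp y h2

private theorem cubeF_zero (e : X ≃L[ℝ] (Fin K → ℂ)) (l : Fin K) {y : X} :
    cubeF e l y = 0 ↔ y = 0 := by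
  unfold cubeF
  rw [map_eq_zero_iff e.symm e.symm.injective]
  constructor
  · intro h
    have h2 : e y = 0 := by
      funext i
      have h3 := congrFun h i
      rw [cubeC_apply] at h3
      by_cases hi : i = l
      · rw [if_pos hi] at h3
        rw [hi]
        exact pow_eq_zero_iff (n := 3) (by norm_num) |>.1 h3
      · rw [if_neg hi] at h3
        exact h3
    exact (map_eq_zero_iff e e.injective).1 h2
  · rintro rfl
    funext i
    rw [cubeC_apply, map_zero]
    simp

/-- two points with the same image differ by a cube root of unity in the coordinate `l` -/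
private theorem cubeF_eq_iff (e : X ≃L[ℝ] (Fin K → ℂ)) (l : Fin K) (ζ : ℂˣ)
    (hζ : IsPrimitiveRoot (ζ : ℂ) 3) {y c : X} (hc : e c l ≠ 0) :
    cubeF e l y = cubeF e l c ↔ ∃ j : Fin 3, y = cubeT e l (ζ ^ (j : ℕ)) c := by
  unfold cubeF
  rw [e.symm.injective.eq_iff]
  constructor
  · intro h
    have h1 := congrFun h l
    rw [cubeC_apply, cubeC_apply, if_pos rfl, if_pos rfl] at h1
    have h2 : (e y l / e c l) ^ 3 = 1 := by
      rw [div_pow, h1, div_self (pow_ne_zero 3 hc)]
    obtain ⟨j, hj, hj'⟩ := hζ.eq_pow_of_pow_eq_one h2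
    refine ⟨⟨j, hj⟩, ?_⟩
    apply e.injective
    rw [cubeT_apply, e.apply_symm_apply]
    funext i
    rw [cubeM_apply]
    by_cases hi : i = l
    · subst hi
      rw [if_pos rfl, Units.val_pow_eq_pow_val]
      change e y i = e c i * (ζ : ℂ) ^ j
      rw [hj']
      field_simp
    · rw [if_neg hi, Units.val_one, mul_one]
      have h3 := congrFun h i
      rw [cubeC_apply, cubeC_apply, if_neg hi, if_neg hi] at h3
      exact h3
  · rintro ⟨j, rfl⟩
    rw [cubeT_apply, e.apply_symm_apply]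
    funext i
    rw [cubeC_apply, cubeC_apply]
    by_cases hi : i = l
    · rw [if_pos hi, if_pos hi, cubeM_apply, if_pos rfl, Units.val_pow_eq_pow_val, mul_pow,
        ← pow_mul, mul_comm (j : ℕ) 3, pow_mul, hζ.pow_eq_one, one_pow, mul_one]
    · rw [if_neg hi, if_neg hi, cubeM_apply, if_neg hi, Units.val_one, mul_one]

private theorem cubeT_inj (e : X ≃L[ℝ] (Fin K → ℂ)) (l : Fin K) (ζ : ℂˣ)
    (hζ : IsPrimitiveRoot (ζ : ℂ) 3) {c : X} (hc : e c l ≠ 0) {i j : Fin 3}
    (h : cubeT e l (ζ ^ (i : ℕ)) c = cubeT e l (ζ ^ (j : ℕ)) c) : i = j := by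
  rw [cubeT_apply, cubeT_apply] at h
  have h1 := congrFun (e.symm.injective h) l
  rw [cubeM_apply, cubeM_apply, if_pos rfl, if_pos rfl] at h1
  have h2 := mul_left_cancel₀ hc h1
  rw [Units.val_pow_eq_pow_val, Units.val_pow_eq_pow_val] at h2
  exact Fin.ext (hζ.pow_inj i.2 j.2 h2)

end Cube

theorem deg_cube {V : Set X} (hV : IsOpen V) (hb : Bornology.IsBounded V) {g : X → X}
    (hg : ContinuousOn g (closure V)) (h0 : ∀ x ∈ frontier V, g x ≠ 0) {K : ℕ}
    (e : X ≃L[ℝ] (Fin K → ℂ)) (l : Fin K) :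
    deg V (fun x => e.symm (Function.update (e (g x)) l ((e (g x)) l ^ 3))) = 3 * deg V g := by
  have hfc : IsCompact (frontier V) := by
    have : ProperSpace X := FiniteDimensional.proper ℝ X
    exact (hb.isCompact_closure).of_isClosed_subset isClosed_frontier frontier_subset_closure
  have hgf : ContinuousOn g (frontier V) := hg.mono frontier_subset_closure
  set F : X → X := cubeF e l with hF
  have hFC : ContDiff ℝ 1 F := cubeF_contDiff e l
  have hFc : Continuous F := hFC.continuous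
  obtain ⟨m, hm, hm'⟩ := cube_lower hfc hgf.norm fun x hx => norm_pos_iff.2 (h0 x hx)
  obtain ⟨M, hM, hM'⟩ := cube_lower hfc (hFc.comp_continuousOn hgf).norm
    fun x hx => norm_pos_iff.2 fun h => h0 x hx ((cubeF_zero e l).1 h)
  -- closeness of `F`
  have hu := (hfc.image_of_continuousOn hgf).uniformContinuousAt_of_continuousAt F
    (fun a _ => hFc.continuousAt) (Metric.dist_mem_uniformity (half_pos hM))
  obtain ⟨ε₁, hε₁, hε₁'⟩ := Metric.mem_uniformity_dist.1 hu
  -- the cube root of unity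
  have hζ0 := Complex.isPrimitiveRoot_exp 3 (by norm_num)
  obtain ⟨ζ, hζ⟩ : ∃ ζ : ℂˣ, IsPrimitiveRoot (ζ : ℂ) 3 :=
    ⟨(hζ0.isUnit (by norm_num)).unit, hζ0⟩
  let T : Fin 3 → (X ≃L[ℝ] X) := fun j => cubeT e l (ζ ^ (j : ℕ))
  -- the approximation
  obtain ⟨q, hq, hqg⟩ := exists_contDiff_close hg (lt_min hε₁ (half_pos hm))
  -- small vectors
  have hsmall : ∀ᶠ c in 𝓝 (0 : X), ‖F c‖ < M / 2 ∧ ∀ j, ‖T j c‖ < m / 2 := by
    have h1 : ∀ᶠ c in 𝓝 (0 : X), ‖F c‖ < M / 2 := by
      have h2 : Filter.Tendsto (fun c => ‖F c‖) (𝓝 0) (𝓝 ‖F 0‖) := (hFc.norm).tendsto 0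
      have hF0 : F 0 = 0 := (cubeF_zero e l).2 rfl
      rw [hF0, norm_zero] at h2
      exact h2.eventually (gt_mem_nhds (half_pos hM))
    have h3 : ∀ j, ∀ᶠ c in 𝓝 (0 : X), ‖T j c‖ < m / 2 := by
      intro j
      have h2 : Filter.Tendsto (fun c => ‖T j c‖) (𝓝 0) (𝓝 ‖T j 0‖) :=
        ((T j).continuous.norm).tendsto 0
      rw [map_zero, norm_zero] at h2
      exact h2.eventually (gt_mem_nhds (half_pos hm))
    exact h1.and (Filter.eventually_all.2 h3)
  obtain ⟨ε₀, hε₀, hε₀'⟩ := Metric.eventually_nhds_iff.1 hsmall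
  -- the real subspace
  let N : Submodule ℝ X := LinearMap.ker
    ((LinearMap.proj (R := ℝ) (φ := fun _ : Fin K => ℂ) l) ∘ₗ (e.toLinearEquiv : X →ₗ[ℝ] (Fin K → ℂ)))
  have hN : ∀ x, x ∈ N ↔ e x l = 0 := fun x => LinearMap.mem_ker
  have hNtop : N ≠ ⊤ := by
    intro h
    have h1 : e.symm (Pi.single l 1) ∈ N := by rw [h]; exact Submodule.mem_top
    rw [hN, e.apply_symm_apply] at h1
    simp at h1
  obtain ⟨c, hc, hcN, hreg⟩ := exists_regular_value T hq hNtop hε₀
  have hcl : e c l ≠ 0 := fun h => hcN ((hN c).2 h)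
  obtain ⟨hFsm, hTsm⟩ := hε₀' (y := c) (by rwa [dist_zero_right])
  -- the approximations of `g`
  have hRj : ∀ j, RegApprox V g (fun x => q x - T j c) := by
    intro j
    refine ⟨hq.sub contDiff_const, fun x hx => ?_, fun x _ hx0 => ?_⟩
    · have h1 := (hqg x (frontier_subset_closure hx)).trans_le (min_le_right _ _)
      have h2 := hTsm j
      have h3 := hm' x hx
      have h4 : q x - T j c - g x = (q x - g x) - T j c := by abel
      rw [h4]
      calc ‖(q x - g x) - T j c‖ ≤ ‖q x - g x‖ + ‖T j c‖ := norm_sub_le _ _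
        _ < m / 2 + m / 2 := add_lt_add h1 h2
        _ = m := by ring
        _ ≤ ‖g x‖ := h3
    · have h1 : jac (fun x => q x - T j c) x = jac q x := by
        unfold jac
        rw [fderiv_sub_const]
      rw [h1]
      exact hreg j x (sub_eq_zero.1 hx0)
  -- the approximation of `F ∘ g`
  let Q : X → X := fun x => F (q x) - F c
  have hQjac : ∀ x, ∀ j, q x = T j c → ∃ u : ℂˣ,
      jac Q x = ((cubeT e l u : X ≃L[ℝ] X) : X →L[ℝ] X).det * jac q x := by
    intro x j hx
    have hqx : e (q x) l ≠ 0 := by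
      rw [hx]
      change e (cubeT e l (ζ ^ (j : ℕ)) c) l ≠ 0
      rw [cubeT_apply, e.apply_symm_apply, cubeM_apply, if_pos rfl]
      exact mul_ne_zero hcl (Units.ne_zero _)
    have h3 : (3 : ℂ) * (e (q x) l) ^ 2 ≠ 0 := mul_ne_zero (by norm_num) (pow_ne_zero 2 hqx)
    refine ⟨Units.mk0 _ h3, ?_⟩
    have h4 := (cubeF_deriv e l (q x) (Units.mk0 _ h3) rfl)
    have h5 : HasFDerivAt q (fderiv ℝ q x) x :=
      (hq.differentiable (by norm_num) x).hasFDerivAt
    have h6 := (h4.comp x h5).sub_const (F c)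
    have h7 : fderiv ℝ Q x = _ := h6.fderiv
    unfold jac
    rw [h7]
    exact LinearMap.det_comp _ _
  have hQz : ∀ x, Q x = 0 ↔ ∃ j : Fin 3, q x = T j c := by
    intro x
    change F (q x) - F c = 0 ↔ _
    rw [sub_eq_zero]
    exact cubeF_eq_iff e l ζ hζ hcl
  have hRQ : RegApprox V (fun x => F (g x)) Q := by
    refine ⟨(hFC.comp hq).sub contDiff_const, fun x hx => ?_, fun x _ hx0 => ?_⟩
    · have h1 := (hqg x (frontier_subset_closure hx)).trans_le (min_le_left _ _)
      have h2 : ‖F (q x) - F (g x)‖ < M / 2 := by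
        have h3 : dist (g x) (q x) < ε₁ := by
          rw [dist_comm, dist_eq_norm]
          exact h1
        have h4 := hε₁' h3 (Set.mem_image_of_mem g hx)
        have h5 : dist (F (g x)) (F (q x)) < M / 2 := h4
        rw [dist_comm, dist_eq_norm] at h5
        exact h5
      have h3 := hM' x hx
      have h4 : Q x - F (g x) = (F (q x) - F (g x)) - F c := by
        change F (q x) - F c - F (g x) = _
        abel
      rw [h4]
      calc ‖(F (q x) - F (g x)) - F c‖ ≤ ‖F (q x) - F (g x)‖ + ‖F c‖ := norm_sub_le _ _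
        _ < M / 2 + M / 2 := add_lt_add h2 hFsm
        _ = M := by ring
        _ ≤ ‖F (g x)‖ := h3
    · obtain ⟨j, hj⟩ := (hQz x).1 hx0
      obtain ⟨u, hu⟩ := hQjac x j hj
      rw [hu]
      exact mul_ne_zero (cubeT_det e l u).ne' (hreg j x hj)
  have h1 : deg V (fun x => F (g x)) = cnt V Q := deg_eq_cnt hV hb hRQ
  have h2 : ∀ j, deg V g = cnt V (fun x => q x - T j c) := fun j => deg_eq_cnt hV hb (hRj j)
  have hne : ∀ j, ∀ x ∈ frontier V, q x - T j c ≠ 0 := by
    intro j x hx h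
    have h3 : ‖q x - T j c - g x‖ < ‖g x‖ := (hRj j).close x hx
    rw [h, zero_sub, norm_neg] at h3
    exact lt_irrefl _ h3
  have hfin : ∀ j, {x | x ∈ V ∧ q x - T j c = 0}.Finite := fun j =>
    finite_zeros hV hb (hRj j).smooth (hne j) (hRj j).reg
  have hdis : Pairwise (Function.onFun Disjoint fun j => {x | x ∈ V ∧ q x - T j c = 0}) := by
    intro i j hij
    rw [Function.onFun, Set.disjoint_left]
    rintro x ⟨-, hx⟩ ⟨-, hx'⟩
    apply hij
    refine cubeT_inj e l ζ hζ hcl ?_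
    exact (sub_eq_zero.1 hx).symm.trans (sub_eq_zero.1 hx')
  have hset : {x | x ∈ V ∧ Q x = 0} = ⋃ j, {x | x ∈ V ∧ q x - T j c = 0} := by
    ext x
    simp only [Set.mem_setOf_eq, Set.mem_iUnion]
    rw [hQz]
    constructor
    · rintro ⟨hx, j, hj⟩
      exact ⟨j, hx, sub_eq_zero.2 hj⟩
    · rintro ⟨j, hx, hj⟩
      exact ⟨hx, j, sub_eq_zero.1 hj⟩
  have hcnt : cnt V Q = ∑ j : Fin 3, cnt V (fun x => q x - T j c) := by
    unfold cnt
    rw [hset, finsum_mem_iUnion hdis hfin, finsum_eq_sum_of_fintype]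
    refine Finset.sum_congr rfl fun j _ => ?_
    refine finsum_mem_congr rfl fun x hx => ?_
    have hj : q x = T j c := sub_eq_zero.1 hx.2
    obtain ⟨u, hu⟩ := hQjac x j hj
    have h3 : jac (fun x => q x - T j c) x = jac q x := by
      unfold jac
      rw [fderiv_sub_const]
    rw [hu, h3, sign_mul, sign_pos (cubeT_det e l u), one_mul]
  have h3 : deg V (fun x => e.symm (Function.update (e (g x)) l ((e (g x)) l ^ 3))) =
      deg V (fun x => F (g x)) := rfl
  rw [h3, h1, hcnt]
  simp only [← h2]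
  rw [Finset.sum_const, Finset.card_univ, Fintype.card_fin, nsmul_eq_mul]
  norm_num

end EMU
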