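import Pool.Agent.Lib.EMU.D.Defs

/-!
# MP_9aab3b_gt, module D.Exist: existence of regular approximations (Sard)

PROOF. `exists_contDiff_close`: extend `g` restricted to the closed set `closure V` to a continuous map `X → X` (Tietze:
`ContinuousMap.exists_restrict_eq` / `ContinuousOn.exists_...`, for the finite dimensional space `X`, instance
`TietzeExtension`), then `Continuous.exists_contDiff_approx` (file `Mathlib/Geometry/Manifold/SmoothApprox.lean`).
`exists_regular_value`: `borelize X`, `μ = addHaar`. The set `Z = {x | jac q x = 0}` has image of measure `0`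
(`addHaar_image_eq_zero_of_det_fderivWithin_eq_zero`, the theorem of Sard in equal dimensions). The sets `(T j) ⁻¹' (q '' Z)`
have measure `0` (a linear equivalence maps null sets to null sets: `ContinuousLinearEquiv`, `Measure.addHaar_preimage_...`
/`addHaar_image_continuousLinearMap` for the inverse) and a proper subspace has measure `0` (`Measure.addHaar_submodule`). A finite
union of null sets does not contain the ball of radius `ε`.
`exists_regApprox`: let `m = min ε (inf of ‖g‖ on frontier V)` (compact; if the frontier is empty take `m = ε`). Take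
`q` with `‖q - g‖ < m / 2` on `closure V` and a `c` with `‖c‖ < m / 2` such that `q x = c → jac q x ≠ 0`; use `q - c`.
-/

set_option autoImplicit false

open Set Metric MeasureTheory Topology

namespace EMU

variable {X : Type*} [NormedAddCommGroup X] [NormedSpace ℝ X] [FiniteDimensional ℝ X]

theorem exists_contDiff_close {V : Set X} {g : X → X} (hg : ContinuousOn g (closure V)) {ε : ℝ}
    (hε : 0 < ε) : ∃ q : X → X, ContDiff ℝ 1 q ∧ ∀ x ∈ closure V, ‖q x - g x‖ < ε := by
  have : TietzeExtension X := RCLike.instTietzeExtensionTVS (𝕜 := ℝ)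
  let G : C(closure V, X) := ⟨(closure V).domRestrict g, continuousOn_iff_continuous_domRestrict.1 hg⟩
  obtain ⟨g', hg'⟩ := ContinuousMap.exists_restrict_eq isClosed_closure G
  obtain ⟨q, hq, hqd, -⟩ := Continuous.exists_contDiff_approx (1 : ℕ∞) g'.continuous
    (ε := fun _ => ε) continuous_const (fun _ => hε)
  refine ⟨q, by simpa using hq, fun x hx => ?_⟩
  have h1 := hqd x
  rw [dist_eq_norm] at h1
  have h2 : g' x = g x := DFunLike.congr_fun hg' ⟨x, hx⟩
  rwa [h2] at h1

theorem exists_regular_value {ι : Type*} [Finite ι] (T : ι → (X ≃L[ℝ] X)) {q : X → X}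
    (hq : ContDiff ℝ 1 q) {M : Submodule ℝ X} (hM : M ≠ ⊤) {ε : ℝ} (hε : 0 < ε) :
    ∃ c : X, ‖c‖ < ε ∧ c ∉ M ∧ ∀ j x, q x = T j c → jac q x ≠ 0 := by
  borelize X
  let μ : Measure X := MeasureTheory.Measure.addHaar
  let Z : Set X := {x | jac q x = 0}
  have hZ : μ (q '' Z) = 0 := by
    refine addHaar_image_eq_zero_of_det_fderivWithin_eq_zero μ (f' := fderiv ℝ q)
      (fun x _ => ?_) (fun x hx => hx)
    exact ((hq.differentiable one_ne_zero) x).hasFDerivAt.hasFDerivWithinAt
  have hT : ∀ j, μ ((T j) ⁻¹' (q '' Z)) = 0 := by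
    intro j
    have h1 : (T j) ⁻¹' (q '' Z) = (T j).symm '' (q '' Z) :=
      ((T j).symm.toEquiv.image_eq_preimage_symm (q '' Z)).symm
    rw [h1]
    have h2 := Measure.addHaar_image_continuousLinearMap μ ((T j).symm : X →L[ℝ] X) (q '' Z)
    rw [hZ, mul_zero] at h2
    exact h2
  have hMz : μ (M : Set X) = 0 := Measure.addHaar_submodule μ M hM
  have hball : 0 < μ (ball (0 : X) ε) := measure_ball_pos μ 0 hε
  have hU : μ ((M : Set X) ∪ ⋃ j, (T j) ⁻¹' (q '' Z)) = 0 :=
    measure_union_null hMz (measure_iUnion_null hT)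
  obtain ⟨c, hc, hc'⟩ : ∃ c ∈ ball (0 : X) ε, c ∉ (M : Set X) ∪ ⋃ j, (T j) ⁻¹' (q '' Z) := by
    by_contra h
    push Not at h
    exact hball.ne' (measure_mono_null h hU)
  rw [Set.mem_union, not_or] at hc'
  refine ⟨c, by simpa using hc, hc'.1, fun j x hx h0 => hc'.2 ?_⟩
  exact Set.mem_iUnion.2 ⟨j, x, h0, hx⟩

theorem exists_regApprox [Nontrivial X] {V : Set X} (hb : Bornology.IsBounded V) {g : X → X}
    (hg : ContinuousOn g (closure V)) (h0 : ∀ x ∈ frontier V, g x ≠ 0) {ε : ℝ} (hε : 0 < ε) :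
    ∃ q : X → X, RegApprox V g q ∧ ∀ x ∈ closure V, ‖q x - g x‖ < ε := by
  have : ProperSpace X := FiniteDimensional.proper ℝ X
  have hfc : IsCompact (frontier V) :=
    Metric.isCompact_of_isClosed_isBounded isClosed_frontier
      (hb.closure.subset frontier_subset_closure)
  obtain ⟨δ, hδ, hδg⟩ : ∃ δ : ℝ, 0 < δ ∧ ∀ x ∈ frontier V, δ ≤ ‖g x‖ := by
    rcases (frontier V).eq_empty_or_nonempty with h | h
    · exact ⟨1, one_pos, fun x hx => by rw [h] at hx; exact absurd hx (Set.notMem_empty x)⟩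
    · obtain ⟨x₀, hx₀, hmin⟩ := hfc.exists_isMinOn h
        ((hg.mono frontier_subset_closure).norm)
      exact ⟨‖g x₀‖, norm_pos_iff.2 (h0 x₀ hx₀), fun x hx => hmin hx⟩
  set r : ℝ := min ε δ with hr
  have hr0 : 0 < r := lt_min hε hδ
  obtain ⟨q₀, hq₀, hq₀g⟩ := exists_contDiff_close hg (half_pos hr0)
  obtain ⟨c, hc, -, hcr⟩ := exists_regular_value
    (fun _ : Unit => ContinuousLinearEquiv.refl ℝ X) hq₀ (M := ⊥) bot_ne_top (half_pos hr0)
  have hclose : ∀ x ∈ closure V, ‖(q₀ x - c) - g x‖ < r := by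
    intro x hx
    have h1 : (q₀ x - c) - g x = (q₀ x - g x) - c := by abel
    rw [h1]
    calc ‖(q₀ x - g x) - c‖ ≤ ‖q₀ x - g x‖ + ‖c‖ := norm_sub_le _ _
      _ < r / 2 + r / 2 := add_lt_add (hq₀g x hx) hc
      _ = r := add_halves r
  refine ⟨fun x => q₀ x - c, ⟨hq₀.sub contDiff_const, fun x hx => ?_, fun x _ hx => ?_⟩,
    fun x hx => (hclose x hx).trans_le (min_le_left _ _)⟩
  · exact (hclose x (frontier_subset_closure hx)).trans_le
      ((min_le_right _ _).trans (hδg x hx))
  · have h1 : q₀ x = c := sub_eq_zero.1 hx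
    have h2 : jac (fun x => q₀ x - c) x = jac q₀ x := by
      unfold jac
      rw [fderiv_sub_const]
    rw [h2]
    exact hcr () x h1

end EMU
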