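import Pool.Agent.Lib.EMU.D.CntHom
import Pool.Agent.Lib.EMU.D.Exist

/-!
# MP_9aab3b_gt, module D.Basic: first properties of the degree

PROOF. `deg_congr`: `RegApprox V g = RegApprox V g'` as predicates (only `close` mentions `g`).
`deg_eq_cnt`: unfold `deg`; let `q'` be the chosen function. Both `q` and `q'` are closer to `g` than `‖g‖` on the frontier, hence so
is `(1 - t) • q + t • q'` (convexity of the ball), so it does not vanish; `cnt_eq_of_homotopy`.
`deg_rouche`: on the frontier `g ≠ 0` and `g' ≠ 0`. The continuous function `‖g‖ - ‖g' - g‖` has a positive lower bound `m` on the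
compact frontier, and `‖g'‖` too. Choose by `exists_regApprox` (for `g'`, `ε ≤ m`) a `q` with `RegApprox V g' q` and
`‖q - g'‖ < m` on the closure: then `‖q - g‖ < ‖g‖` on the frontier, so `RegApprox V g q` as well; both degrees are `cnt V q`.
`deg_homotopy`: `(t, x) ↦ ‖(1 - t) • g x + t • g' x‖` has a lower bound `m > 0` on `[0,1] × frontier V` and `‖g' - g‖ ≤ M` there;
for `N > M / m` the functions with `t = i / N` and `t = (i+1) / N` satisfy the hypothesis of `deg_rouche`; induction on `i`.
(If the frontier is empty, `deg_congr` applies.)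
-/

set_option autoImplicit false

open Set Metric MeasureTheory Topology

namespace EMU

variable {X : Type*} [NormedAddCommGroup X] [NormedSpace ℝ X] [FiniteDimensional ℝ X] [Nontrivial X]

omit [FiniteDimensional ℝ X] [Nontrivial X] in
theorem deg_congr {V : Set X} {g g' : X → X} (h : ∀ x ∈ frontier V, g x = g' x) :
    deg V g = deg V g' := by
  have hR : ∀ q, RegApprox V g q ↔ RegApprox V g' q := by
    intro q
    constructor
    · rintro ⟨h1, h2, h3⟩
      exact ⟨h1, fun x hx => by rw [← h x hx]; exact h2 x hx, h3⟩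
    · rintro ⟨h1, h2, h3⟩
      exact ⟨h1, fun x hx => by rw [h x hx]; exact h2 x hx, h3⟩
  have hR' : RegApprox V g = RegApprox V g' := by
    funext q
    exact propext (hR q)
  have key : ∀ R R' : (X → X) → Prop, R = R' →
      (@dite ℤ (∃ q, R q) (Classical.propDecidable _) (fun h => cnt V h.choose) fun _ => 0) =
      (@dite ℤ (∃ q, R' q) (Classical.propDecidable _) (fun h => cnt V h.choose) fun _ => 0) := by
    rintro R _ rfl
    rfl
  exact key _ _ hR'

omit [FiniteDimensional ℝ X] [Nontrivial X] in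
private theorem comb_ne {a b c : X} {t : ℝ} (ht : t ∈ Icc (0 : ℝ) 1) (ha : ‖a - c‖ < ‖c‖)
    (hb : ‖b - c‖ < ‖c‖) : (1 - t) • a + t • b ≠ 0 := by
  intro h0
  have e : -c = (1 - t) • (a - c) + t • (b - c) := by
    have : (1 - t) • (a - c) + t • (b - c) = ((1 - t) • a + t • b) - c := by
      module
    rw [this, h0, zero_sub]
  have h1 : ‖c‖ ≤ (1 - t) * ‖a - c‖ + t * ‖b - c‖ := by
    calc ‖c‖ = ‖-c‖ := (norm_neg c).symm
      _ = ‖(1 - t) • (a - c) + t • (b - c)‖ := by rw [← e]
      _ ≤ ‖(1 - t) • (a - c)‖ + ‖t • (b - c)‖ := norm_add_le _ _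
      _ = (1 - t) * ‖a - c‖ + t * ‖b - c‖ := by
        rw [norm_smul, norm_smul, Real.norm_of_nonneg (by linarith [ht.2]), Real.norm_of_nonneg ht.1]
  rcases eq_or_lt_of_le ht.1 with h | h
  · subst h
    simp only [sub_zero, one_mul, zero_mul, add_zero] at h1
    linarith
  · nlinarith [mul_lt_mul_of_pos_left hb h, mul_le_mul_of_nonneg_left ha.le (sub_nonneg.2 ht.2)]

theorem deg_eq_cnt {V : Set X} (hV : IsOpen V) (hb : Bornology.IsBounded V) {g q : X → X}
    (h : RegApprox V g q) : deg V g = cnt V q := by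
  have he : ∃ q, RegApprox V g q := ⟨q, h⟩
  unfold deg
  rw [dif_pos he]
  have h' := he.choose_spec
  exact cnt_eq_of_homotopy hV hb h'.smooth h.smooth h'.reg h.reg
    fun x hx t ht => comb_ne ht (h'.close x hx) (h.close x hx)

omit [Nontrivial X] in
private theorem front_compact {V : Set X} (hb : Bornology.IsBounded V) : IsCompact (frontier V) := by
  have : ProperSpace X := FiniteDimensional.proper ℝ X
  exact Metric.isCompact_of_isClosed_isBounded isClosed_frontier
    (hb.closure.subset frontier_subset_closure)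

private theorem low {Y : Type*} [TopologicalSpace Y] {S : Set Y} (hS : IsCompact S) {φ : Y → ℝ}
    (hφ : ContinuousOn φ S) (hp : ∀ x ∈ S, 0 < φ x) : ∃ m : ℝ, 0 < m ∧ ∀ x ∈ S, m ≤ φ x := by
  rcases S.eq_empty_or_nonempty with h | h
  · exact ⟨1, one_pos, fun x hx => by rw [h] at hx; exact absurd hx (Set.notMem_empty x)⟩
  · obtain ⟨x₀, hx₀, hmin⟩ := hS.exists_isMinOn h hφ
    exact ⟨φ x₀, hp x₀ hx₀, fun x hx => hmin hx⟩

theorem deg_rouche {V : Set X} (hV : IsOpen V) (hb : Bornology.IsBounded V) {g g' : X → X}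
    (hg : ContinuousOn g (closure V)) (hg' : ContinuousOn g' (closure V))
    (h : ∀ x ∈ frontier V, ‖g' x - g x‖ < ‖g x‖) : deg V g' = deg V g := by
  have hfc := front_compact hb
  have hgf := hg.mono frontier_subset_closure
  have hgf' := hg'.mono frontier_subset_closure
  obtain ⟨m, hm, hml⟩ := low hfc (φ := fun x => ‖g x‖ - ‖g' x - g x‖)
    (hgf.norm.sub (hgf'.sub hgf).norm) (fun x hx => sub_pos.2 (h x hx))
  have h0' : ∀ x ∈ frontier V, g' x ≠ 0 := by
    intro x hx h0
    have := h x hx
    rw [h0, zero_sub, norm_neg] at this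
    exact lt_irrefl _ this
  obtain ⟨q, hq, hqc⟩ := exists_regApprox hb hg' h0' hm
  have hq2 : RegApprox V g q := by
    refine ⟨hq.smooth, fun x hx => ?_, hq.reg⟩
    have h1 := hqc x (frontier_subset_closure hx)
    have h2 := hml x hx
    calc ‖q x - g x‖ = ‖(q x - g' x) + (g' x - g x)‖ := by congr 1; abel
      _ ≤ ‖q x - g' x‖ + ‖g' x - g x‖ := norm_add_le _ _
      _ < ‖g x‖ := by linarith
  rw [deg_eq_cnt hV hb hq, deg_eq_cnt hV hb hq2]

theorem deg_homotopy {V : Set X} (hV : IsOpen V) (hb : Bornology.IsBounded V) {g g' : X → X}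
    (hg : ContinuousOn g (closure V)) (hg' : ContinuousOn g' (closure V))
    (h : ∀ x ∈ frontier V, ∀ t ∈ Icc (0 : ℝ) 1, (1 - t) • g x + t • g' x ≠ 0) :
    deg V g = deg V g' := by
  have hfc := front_compact hb
  have hgf := hg.mono frontier_subset_closure
  have hgf' := hg'.mono frontier_subset_closure
  have hcc : ContinuousOn (fun p : ℝ × X => ‖(1 - p.1) • g p.2 + p.1 • g' p.2‖)
      (Icc (0 : ℝ) 1 ×ˢ frontier V) := by
    have e1 : ContinuousOn (fun p : ℝ × X => g p.2) (Icc (0 : ℝ) 1 ×ˢ frontier V) :=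
      hgf.comp continuousOn_snd (fun p hp => hp.2)
    have e2 : ContinuousOn (fun p : ℝ × X => g' p.2) (Icc (0 : ℝ) 1 ×ˢ frontier V) :=
      hgf'.comp continuousOn_snd (fun p hp => hp.2)
    exact (((continuousOn_const.sub continuousOn_fst).smul e1).add (continuousOn_fst.smul e2)).norm
  obtain ⟨m, hm, hml⟩ := low (isCompact_Icc.prod hfc) hcc
    (fun p hp => norm_pos_iff.2 (h p.2 hp.2 p.1 hp.1))
  obtain ⟨M, hM⟩ : ∃ M : ℝ, ∀ x ∈ frontier V, ‖g' x - g x‖ ≤ M :=
    hfc.exists_bound_of_continuousOn (hgf'.sub hgf)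
  obtain ⟨N, hN⟩ := exists_nat_gt (max (M / m) 1)
  have hN0 : (0 : ℝ) < N := lt_of_lt_of_le one_pos ((le_max_right _ _).trans hN.le)
  have hMN : M / N < m := by
    rw [div_lt_iff₀ hN0]
    have := (le_max_left (M / m) 1).trans_lt hN
    rw [div_lt_iff₀ hm] at this
    linarith
  have key : ∀ i : ℕ, i ≤ N →
      deg V g = deg V (fun x => (1 - (i / N : ℝ)) • g x + (i / N : ℝ) • g' x) := by
    intro i
    induction i with
    | zero =>
      intro _
      congr 1
      funext x
      simp
    | succ i ih =>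
      intro hi
      rw [ih (by omega)]
      symm
      refine deg_rouche hV hb ?_ ?_ ?_
      · exact (hg.const_smul _).add (hg'.const_smul _)
      · exact (hg.const_smul _).add (hg'.const_smul _)
      · intro x hx
        have hi0 : (i / N : ℝ) ∈ Icc (0 : ℝ) 1 := by
          constructor
          · positivity
          · rw [div_le_one hN0]
            exact_mod_cast (by omega : i ≤ N)
        have h1 := hml (i / N, x) ⟨hi0, hx⟩
        refine lt_of_lt_of_le (lt_of_le_of_lt ?_ hMN) h1
        have e : ((1 - ((i + 1 : ℕ) / N : ℝ)) • g x + ((i + 1 : ℕ) / N : ℝ) • g' x)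
            - ((1 - (i / N : ℝ)) • g x + (i / N : ℝ) • g' x) = (1 / N : ℝ) • (g' x - g x) := by
          push_cast
          rw [add_div]
          module
        show ‖((1 - ((i + 1 : ℕ) / N : ℝ)) • g x + ((i + 1 : ℕ) / N : ℝ) • g' x)
            - ((1 - (i / N : ℝ)) • g x + (i / N : ℝ) • g' x)‖ ≤ M / N
        rw [e, norm_smul, Real.norm_of_nonneg (by positivity), one_div, inv_mul_eq_div]
        exact div_le_div_of_nonneg_right (hM x hx) hN0.le
  rw [key N le_rfl]
  congr 1
  funext x
  rw [div_self hN0.ne']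
  simp

end EMU
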