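import Pool.Agent.Lib.EMU.D.Defs

/-!
# MP_9aab3b_gt, module D.CntForm: the signed number of zeros as an integral

PROOF. `wt_eq_zero`: the coordinates satisfy `‖y‖ ≤ c * max |y_i|` (finite dimension); `bump1` vanishes outside `ball 0 2`, so
`wt b δ y ≠ 0` implies `|y_i| < 2 δ` for all `i`, so `‖y‖ < κ δ` with `κ = 2 c + 1` (say).
`integral_wt_pos`: `wt b δ` is continuous, nonnegative, has compact support and is `1` at `0` (`Continuous.integral_pos_of_...`).
`finite_zeros`: the zeros of `q` in `V` are the zeros in the compact set `closure V`, each of them is isolated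
(`jac q x ≠ 0`: `HasStrictFDerivAt` with an invertible derivative is injective near `x`), so the set is finite
(`IsCompact.finite` + discreteness, or: an infinite subset of a compact set has an accumulation point, which is a zero in
`closure V`, hence in `V`, and not isolated).
`integral_wt_jac_eq_cnt`: let `x_1, ..., x_m` be the zeros in `V`. By the inverse function theorem
(`ContDiffAt.toOpenPartialHomeomorph`/`HasStrictFDerivAt.toOpenPartialHomeomorph`) there are disjoint open neighbourhoods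
`W_i ⊆ V` of `x_i` on which `q` is injective, the sign of `jac q` is constant (continuity of `jac q`), and `q '' W_i` is open and
contains `0`. On the compact set `closure V \ ⋃ W_i` one has `‖q‖ ≥ m₀ > 0`. For `δ` small (`κ δ < m₀` and
`ball 0 (κ δ) ⊆ q '' W_i` for all `i`) the integrand vanishes on `V \ ⋃ W_i`, and
`∫ x in W_i, wt b δ (q x) * jac q x = sign_i * ∫ x in W_i, |jac q x| * wt b δ (q x) = sign_i * ∫ y in q '' W_i, wt b δ y
 = sign_i * ∫ y, wt b δ y` (`integral_image_eq_integral_abs_det_fderiv_smul`). Sum over `i` (`finsum_mem_eq_sum...`).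
-/

set_option autoImplicit false

open Set Metric MeasureTheory Topology

namespace EMU

variable {X : Type*} [NormedAddCommGroup X] [NormedSpace ℝ X] [FiniteDimensional ℝ X] {n : ℕ}

theorem wt_continuous (b : Module.Basis (Fin n) ℝ X) (δ : ℝ) : Continuous (wt b δ) := by
  unfold wt
  refine continuous_finsetProd _ fun i _ => ?_
  have h1 : Continuous fun y : X => b.repr y i := by
    have h := (b.coord i).continuous_of_finiteDimensional
    exact h
  exact (bump1.continuous).comp (h1.div_const δ)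

private theorem wt_nonneg (b : Module.Basis (Fin n) ℝ X) (δ : ℝ) (y : X) : 0 ≤ wt b δ y := by
  unfold wt
  exact Finset.prod_nonneg fun i _ => bump1.nonneg

private theorem wt_zero (b : Module.Basis (Fin n) ℝ X) (δ : ℝ) : wt b δ 0 = 1 := by
  unfold wt
  refine Finset.prod_eq_one fun i _ => ?_
  have h0 : b.repr (0 : X) i / δ = 0 := by simp
  rw [h0]
  apply ContDiffBump.one_of_mem_closedBall
  simp [bump1]

theorem wt_eq_zero (b : Module.Basis (Fin n) ℝ X) :
    ∃ κ : ℝ, 0 < κ ∧ ∀ δ : ℝ, 0 < δ → ∀ y : X, κ * δ ≤ ‖y‖ → wt b δ y = 0 := by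
  refine ⟨2 * ∑ i, ‖b i‖ + 1, by positivity, fun δ hδ y hy => ?_⟩
  by_contra hne
  have hall : ∀ i, |b.repr y i| ≤ 2 * δ := by
    intro i
    by_contra hi
    push Not at hi
    apply hne
    unfold wt
    refine Finset.prod_eq_zero (Finset.mem_univ i) ?_
    apply ContDiffBump.zero_of_le_dist
    have h2 : (bump1).rOut = 2 := rfl
    rw [h2, Real.dist_eq, sub_zero, abs_div, abs_of_pos hδ, le_div_iff₀ hδ]
    exact hi.le
  have h1 : ‖y‖ ≤ ∑ i, ‖b i‖ * (2 * δ) := by
    conv_lhs => rw [← b.sum_repr y]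
    refine (norm_sum_le _ _).trans (Finset.sum_le_sum fun i _ => ?_)
    rw [norm_smul, Real.norm_eq_abs, mul_comm]
    exact mul_le_mul_of_nonneg_left (hall i) (norm_nonneg _)
  rw [← Finset.sum_mul] at h1
  nlinarith [h1, hy, hδ]

theorem integral_wt_pos [MeasurableSpace X] [BorelSpace X] (μ : Measure X) [μ.IsAddHaarMeasure]
    (b : Module.Basis (Fin n) ℝ X) {δ : ℝ} (hδ : 0 < δ) : 0 < ∫ y, wt b δ y ∂μ := by
  obtain ⟨κ, hκ, hz⟩ := wt_eq_zero b
  have hcs : HasCompactSupport (wt b δ) := by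
    refine HasCompactSupport.intro (isCompact_closedBall (0 : X) (κ * δ)) fun y hy => ?_
    apply hz δ hδ y
    rw [mem_closedBall, dist_zero_right, not_le] at hy
    exact hy.le
  refine (wt_continuous b δ).integral_pos_of_hasCompactSupport_nonneg_nonzero hcs
    (fun y => wt_nonneg b δ y) (x := 0) ?_
  rw [wt_zero]
  exact one_ne_zero

private theorem exists_equiv {q : X → X} {x : X} (hx : jac q x ≠ 0) :
    ∃ e : X ≃L[ℝ] X, (e : X →L[ℝ] X) = fderiv ℝ q x := by
  refine ⟨(fderiv ℝ q x).toContinuousLinearEquivOfDetNeZero hx, ?_⟩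
  ext v
  simp

private theorem jac_continuous {q : X → X} (hq : ContDiff ℝ 1 q) : Continuous (jac q) := by
  unfold jac
  exact ContinuousLinearMap.continuous_det.comp (hq.continuous_fderiv one_ne_zero)

private theorem mem_of_closure {V : Set X} (hV : IsOpen V) {q : X → X}
    (h0 : ∀ x ∈ frontier V, q x ≠ 0) {x : X} (hx : x ∈ closure V) (hqx : q x = 0) : x ∈ V := by
  by_contra hxV
  refine h0 x ⟨hx, ?_⟩ hqx
  rwa [hV.interior_eq]

theorem finite_zeros {V : Set X} (hV : IsOpen V) (hb : Bornology.IsBounded V) {q : X → X}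
    (hq : ContDiff ℝ 1 q) (h0 : ∀ x ∈ frontier V, q x ≠ 0) (hr : ∀ x ∈ V, q x = 0 → jac q x ≠ 0) :
    {x | x ∈ V ∧ q x = 0}.Finite := by
  by_contra hinf
  have hK : IsCompact (closure V) := hb.isCompact_closure
  obtain ⟨x, hxK, hacc⟩ := (show Set.Infinite {x | x ∈ V ∧ q x = 0} from hinf).exists_accPt_of_subset_isCompact
    hK (fun y hy => subset_closure hy.1)
  have hq0 : q x = 0 := by
    by_contra hne
    have hopen : IsOpen {y | q y ≠ 0} := isOpen_ne.preimage hq.continuous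
    have hev : ∀ᶠ y in 𝓝 x, q y ≠ 0 := hopen.mem_nhds hne
    have := accPt_iff_frequently.1 hacc
    exact this (hev.mono fun y hy hy2 => hy hy2.2.2)
  have hxV : x ∈ V := mem_of_closure hV h0 hxK hq0
  obtain ⟨e, he⟩ := exists_equiv (hr x hxV hq0)
  have hd : HasFDerivAt q (e : X →L[ℝ] X) x := by
    rw [he]
    exact (hq.differentiable one_ne_zero x).hasFDerivAt
  have hev := hd.eventually_ne (c := (0 : X)) ⟨_, e.antilipschitz⟩
  have h2 := accPt_iff_frequently.1 hacc
  rw [eventually_nhdsWithin_iff] at hev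
  exact h2 (hev.mono fun y hy hy2 => hy hy2.1 hy2.2.2)

private theorem local_nbhd {V : Set X} (hV : IsOpen V) {q : X → X} (hq : ContDiff ℝ 1 q) {x : X}
    (hx : x ∈ V) (hqx : q x = 0) (hj : jac q x ≠ 0) {U : Set X} (hU : IsOpen U) (hxU : x ∈ U) :
    ∃ W : Set X, IsOpen W ∧ x ∈ W ∧ W ⊆ U ∩ V ∧ InjOn q W ∧
      (∀ y ∈ W, SignType.sign (jac q y) = SignType.sign (jac q x)) ∧
      ∃ ρ : ℝ, 0 < ρ ∧ ball (0 : X) ρ ⊆ q '' W := by
  obtain ⟨e, he⟩ := exists_equiv hj
  have hd : HasStrictFDerivAt q (e : X →L[ℝ] X) x := by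
    rw [he]
    exact hq.contDiffAt.hasStrictFDerivAt one_ne_zero
  set φ := hd.toOpenPartialHomeomorph q with hφ
  have hsign : ∀ᶠ y in 𝓝 x, SignType.sign (jac q y) = SignType.sign (jac q x) := by
    rcases lt_or_gt_of_ne hj with h | h
    · filter_upwards [(jac_continuous hq).continuousAt.eventually_lt_const h] with y hy
      rw [sign_neg hy, sign_neg h]
    · filter_upwards [(jac_continuous hq).continuousAt.eventually_const_lt h] with y hy
      rw [sign_pos hy, sign_pos h]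
  obtain ⟨S, hS, hSo, hxS⟩ := _root_.mem_nhds_iff.1 hsign
  refine ⟨φ.source ∩ (S ∩ (U ∩ V)), φ.open_source.inter (hSo.inter (hU.inter hV)),
    ⟨hd.mem_toOpenPartialHomeomorph_source, hxS, hxU, hx⟩, fun y hy => hy.2.2, ?_, ?_, ?_⟩
  · have := φ.injOn
    intro y hy z hz hyz
    exact this hy.1 hz.1 hyz
  · intro y hy
    exact hS hy.2.1
  · have hopen : IsOpen (q '' (φ.source ∩ (S ∩ (U ∩ V)))) := by
      have := φ.isOpen_image_source_inter (hSo.inter (hU.inter hV))
      exact this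
    have hmem : (0 : X) ∈ q '' (φ.source ∩ (S ∩ (U ∩ V))) :=
      ⟨x, ⟨hd.mem_toOpenPartialHomeomorph_source, hxS, hxU, hx⟩, hqx⟩
    obtain ⟨ρ, hρ, hsub⟩ := Metric.isOpen_iff.1 hopen 0 hmem
    exact ⟨ρ, hρ, hsub⟩

theorem integral_wt_jac_eq_cnt [MeasurableSpace X] [BorelSpace X] (μ : Measure X) [μ.IsAddHaarMeasure]
    (b : Module.Basis (Fin n) ℝ X) {V : Set X} (hV : IsOpen V) (hb : Bornology.IsBounded V)
    {q : X → X} (hq : ContDiff ℝ 1 q) (h0 : ∀ x ∈ frontier V, q x ≠ 0)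
    (hr : ∀ x ∈ V, q x = 0 → jac q x ≠ 0) :
    ∃ δ₀ : ℝ, 0 < δ₀ ∧ ∀ δ : ℝ, 0 < δ → δ < δ₀ →
      ∫ x in V, wt b δ (q x) * jac q x ∂μ = (cnt V q : ℝ) * ∫ y, wt b δ y ∂μ := by
  classical
  have hfin := finite_zeros hV hb hq h0 hr
  obtain ⟨κ, hκ, hz⟩ := wt_eq_zero b
  obtain ⟨U, hU, hdisj⟩ := hfin.t2_separation
  have hloc : ∀ x : X, ∃ W : Set X, x ∈ V ∧ q x = 0 → IsOpen W ∧ x ∈ W ∧ W ⊆ U x ∩ V ∧ InjOn q W ∧
      (∀ y ∈ W, SignType.sign (jac q y) = SignType.sign (jac q x)) ∧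
      ∃ ρ : ℝ, 0 < ρ ∧ ball (0 : X) ρ ⊆ q '' W := by
    intro x
    by_cases hx : x ∈ V ∧ q x = 0
    · obtain ⟨W, hW⟩ := local_nbhd hV hq hx.1 hx.2 (hr x hx.1 hx.2) (hU x).2 (hU x).1
      exact ⟨W, fun _ => hW⟩
    · exact ⟨∅, fun h => absurd h hx⟩
  choose W hW using hloc
  have hρ' : ∀ x : X, ∃ ρ : ℝ, 0 < ρ ∧ (x ∈ V ∧ q x = 0 → ball (0 : X) ρ ⊆ q '' W x) := by
    intro x
    by_cases hx : x ∈ V ∧ q x = 0
    · obtain ⟨ρ, h1, h2⟩ := (hW x hx).2.2.2.2.2
      exact ⟨ρ, h1, fun _ => h2⟩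
    · exact ⟨1, one_pos, fun h => absurd h hx⟩
  choose ρ hρ0 hρ using hρ'
  set Z : Finset X := hfin.toFinset with hZ
  have hZmem : ∀ x, x ∈ Z ↔ x ∈ V ∧ q x = 0 := fun x => by simp [hZ]
  -- lower bound outside the neighbourhoods
  have hUnion_open : IsOpen (⋃ x ∈ Z, W x) :=
    isOpen_biUnion fun x hx => (hW x ((hZmem x).1 hx)).1
  have hK : IsCompact (closure V \ ⋃ x ∈ Z, W x) := hb.isCompact_closure.diff hUnion_open
  have hm : ∃ m : ℝ, 0 < m ∧ ∀ x ∈ closure V \ ⋃ x ∈ Z, W x, m ≤ ‖q x‖ := by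
    rcases (closure V \ ⋃ x ∈ Z, W x).eq_empty_or_nonempty with he | hne
    · exact ⟨1, one_pos, fun x hx => by rw [he] at hx; exact absurd hx (notMem_empty x)⟩
    · obtain ⟨x₀, hx₀, hmin⟩ := hK.exists_isMinOn hne (hq.continuous.norm.continuousOn)
      refine ⟨‖q x₀‖, ?_, fun x hx => hmin hx⟩
      rw [norm_pos_iff]
      intro h
      have hxV := mem_of_closure hV h0 hx₀.1 h
      apply hx₀.2
      have hxZ : x₀ ∈ Z := (hZmem x₀).2 ⟨hxV, h⟩
      exact mem_iUnion₂.2 ⟨x₀, hxZ, (hW x₀ ⟨hxV, h⟩).2.1⟩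
  obtain ⟨m, hm0, hm⟩ := hm
  -- a common radius
  have hr0 : ∃ r : ℝ, 0 < r ∧ r ≤ m ∧ ∀ x ∈ Z, r ≤ ρ x := by
    rcases Z.eq_empty_or_nonempty with he | hne
    · exact ⟨m, hm0, le_rfl, fun x hx => by rw [he] at hx; exact absurd hx (Finset.notMem_empty x)⟩
    · refine ⟨min m (Z.inf' hne ρ), ?_, min_le_left _ _, fun x hx =>
        (min_le_right _ _).trans (Finset.inf'_le ρ hx)⟩
      rw [lt_min_iff]
      refine ⟨hm0, ?_⟩
      rw [Finset.lt_inf'_iff]
      exact fun x _ => hρ0 x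
  obtain ⟨r, hr0, hrm, hrρ⟩ := hr0
  refine ⟨r / κ, by positivity, fun δ hδ hδr => ?_⟩
  have hκδ : κ * δ < r := by
    rw [lt_div_iff₀ hκ] at hδr
    linarith [mul_comm δ κ]
  have hFc : Continuous fun x => wt b δ (q x) * jac q x :=
    ((wt_continuous b δ).comp hq.continuous).mul (jac_continuous hq)
  have hint : ∀ S : Set X, Bornology.IsBounded S →
      IntegrableOn (fun x => wt b δ (q x) * jac q x) S μ := by
    intro S hS
    exact (hFc.continuousOn.integrableOn_compact hS.isCompact_closure).mono_set subset_closure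
  have hWV : ∀ x ∈ Z, W x ⊆ V := fun x hx y hy => ((hW x ((hZmem x).1 hx)).2.2.1 hy).2
  have hWmeas : ∀ x ∈ Z, MeasurableSet (W x) := fun x hx => (hW x ((hZmem x).1 hx)).1.measurableSet
  have hsub : (⋃ x ∈ Z, W x) ⊆ V := iUnion₂_subset hWV
  have h1 : ∫ x in V, wt b δ (q x) * jac q x ∂μ
      = ∫ x in (⋃ x ∈ Z, W x), wt b δ (q x) * jac q x ∂μ := by
    refine setIntegral_eq_of_subset_of_forall_sdiff_eq_zero hV.measurableSet hsub ?_
    intro x hx
    have hmx := hm x ⟨subset_closure hx.1, hx.2⟩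
    rw [hz δ hδ (q x) (by linarith), zero_mul]
  have hpd : Set.Pairwise (↑Z) (Function.onFun Disjoint W) := by
    intro x hx y hy hxy
    have hx' := (hZmem x).1 hx
    have hy' := (hZmem y).1 hy
    exact (hdisj hx' hy' hxy).mono (fun z hz => ((hW x hx').2.2.1 hz).1)
      (fun z hz => ((hW y hy').2.2.1 hz).1)
  have h2 : ∫ x in (⋃ x ∈ Z, W x), wt b δ (q x) * jac q x ∂μ
      = ∑ x ∈ Z, ∫ y in W x, wt b δ (q y) * jac q y ∂μ :=
    integral_biUnion_finset Z hWmeas hpd fun x hx => hint _ (hb.subset (hWV x hx))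
  have h3 : ∀ x ∈ Z, ∫ y in W x, wt b δ (q y) * jac q y ∂μ
      = (((SignType.sign (jac q x) : SignType) : ℤ) : ℝ) * ∫ y, wt b δ y ∂μ := by
    intro x hx
    have hx' := (hZmem x).1 hx
    obtain ⟨hWo, hxW, hWs, hinj, hsgn, -⟩ := hW x hx'
    have h4 : ∫ y in q '' (W x), wt b δ y ∂μ = ∫ y in W x, |(fderiv ℝ q y).det| • wt b δ (q y) ∂μ :=
      integral_image_eq_integral_abs_det_fderiv_smul μ hWo.measurableSet
        (fun y _ => (hq.differentiable one_ne_zero y).hasFDerivAt.hasFDerivWithinAt) hinj _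
    have h5 : ∫ y in q '' (W x), wt b δ y ∂μ = ∫ y, wt b δ y ∂μ := by
      refine setIntegral_eq_integral_of_forall_compl_eq_zero fun y hy => ?_
      apply hz δ hδ y
      by_contra hlt
      push Not at hlt
      apply hy
      apply hρ x hx'
      rw [mem_ball, dist_zero_right]
      exact (hlt.trans hκδ).trans_le (hrρ x hx)
    rw [← h5, h4, ← integral_const_mul]
    refine setIntegral_congr_fun hWo.measurableSet fun y hy => ?_
    have h6 : ((SignType.sign (jac q x) : ℤ) : ℝ) * |jac q y| = jac q y := by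
      rw [← hsgn y hy]
      have := sign_mul_abs (jac q y)
      have hc : ((SignType.sign (jac q y) : ℤ) : ℝ) = (SignType.sign (jac q y) : ℝ) := by
        rcases lt_trichotomy (jac q y) 0 with h | h | h <;> simp [h, sign_neg, sign_pos]
      rw [hc]
      exact this
    simp only [smul_eq_mul]
    change wt b δ (q y) * jac q y = ((SignType.sign (jac q x) : ℤ) : ℝ) * (|jac q y| * wt b δ (q y))
    rw [← mul_assoc, h6, mul_comm]
  rw [h1, h2, Finset.sum_congr rfl h3, ← Finset.sum_mul]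
  congr 1
  unfold cnt
  have h7 : (∑ᶠ x ∈ {x | x ∈ V ∧ q x = 0}, ((SignType.sign (jac q x) : SignType) : ℤ))
      = ∑ x ∈ Z, ((SignType.sign (jac q x) : SignType) : ℤ) :=
    finsum_mem_eq_finite_toFinset_sum _ hfin
  rw [h7]
  push_cast
  rfl

end EMU
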