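import Pool.Agent.Lib.EMU.D.IntCongr
import Pool.Agent.Lib.EMU.D.CntForm

/-!
# MP_9aab3b_gt, module D.CntHom: homotopy invariance of the signed number of zeros

PROOF. `borelize X`, `μ = Measure.addHaar`, `b = Module.finBasis ℝ X` (reindexed: `n = finrank`). Put
`g t x = (1 - t) • q₀ x + t • q₁ x`. If `frontier V = ∅` or not, the following works. The function
`(t, x) ↦ ‖g t x‖` is continuous and positive on the compact set `[0,1] × frontier V`. The set
`S = {x ∈ closure V | ∃ t ∈ [0,1], g t x = 0}` is compact (projection of a closed subset of a compact set) and disjoint from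
`frontier V`, so `S ⊆ V`. Choose a compact `C₁` with `S ⊆ interior C₁`, `C₁ ⊆ V` (`exists_compact_between`), and a smooth
`χ : X → [0,1]` with `χ = 1` on `C₁` and compact support `C ⊆ V` (`exists_contDiff_...`, e.g.
`exists_smooth_zero_one_of_isClosed`, or `exists_contMDiff_support_eq...`; only `C^1` is needed).
By compactness there is `m₀ > 0` with `‖g t x‖ ≥ m₀` for `t ∈ [0,1]`, `x ∈ closure V \ interior C₁`.
Put `q x = q₀ x + χ x • (q₁ x - q₀ x) = g (χ x) x`. It is `C^1`, equals `q₀` outside `C`, equals `q₁` on `C₁`.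
Take `δ` small: `κ δ < m₀` (`wt_eq_zero`) and `δ < δ₀` for both `q₀` and `q₁` (`integral_wt_jac_eq_cnt`). Then for
`x ∈ V`: `wt b δ (q x) * jac q x = wt b δ (q₁ x) * jac q₁ x`: for `x ∈ interior C₁` the functions agree near `x`; for
`x ∈ V \ interior C₁` both weights vanish. And `∫ x, (wt b δ (q x) * jac q x - wt b δ (q₀ x) * jac q₀ x) = 0` by
`integral_wt_jac_congr`, where the integrand vanishes outside `C ⊆ V` (near such points `q = q₀`). Hence
`∫ x in V, wt (q₁) jac q₁ = ∫ x in V, wt (q₀) jac q₀`, so `cnt V q₁ = cnt V q₀` (divide by `∫ wt > 0`, cast to `ℤ`).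
-/

set_option autoImplicit false

open Set Metric MeasureTheory Topology

namespace EMU

variable {X : Type*} [NormedAddCommGroup X] [NormedSpace ℝ X] [FiniteDimensional ℝ X] [Nontrivial X]

private theorem CntHom_lower {S : Set (ℝ × X)} (hS : IsCompact S) {φ : ℝ × X → ℝ}
    (hφ : ContinuousOn φ S) (hp : ∀ x ∈ S, 0 < φ x) : ∃ m : ℝ, 0 < m ∧ ∀ x ∈ S, m ≤ φ x := by
  rcases S.eq_empty_or_nonempty with h | h
  · exact ⟨1, one_pos, fun x hx => by rw [h] at hx; exact absurd hx (Set.notMem_empty x)⟩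
  · obtain ⟨x₀, hx₀, hmin⟩ := hS.exists_isMinOn h hφ
    exact ⟨φ x₀, hp x₀ hx₀, fun x hx => hmin hx⟩

theorem cnt_eq_of_homotopy {V : Set X} (hV : IsOpen V) (hb : Bornology.IsBounded V) {q₀ q₁ : X → X}
    (h₀ : ContDiff ℝ 1 q₀) (h₁ : ContDiff ℝ 1 q₁) (r₀ : ∀ x ∈ V, q₀ x = 0 → jac q₀ x ≠ 0)
    (r₁ : ∀ x ∈ V, q₁ x = 0 → jac q₁ x ≠ 0)
    (hne : ∀ x ∈ frontier V, ∀ t ∈ Icc (0 : ℝ) 1, (1 - t) • q₀ x + t • q₁ x ≠ 0) :
    cnt V q₀ = cnt V q₁ := by
  classical
  borelize X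
  have hprop : ProperSpace X := FiniteDimensional.proper ℝ X
  let μ : Measure X := MeasureTheory.Measure.addHaar
  let b := Module.finBasis ℝ X
  have hVc : IsCompact (closure V) := hb.isCompact_closure
  set G : ℝ × X → X := fun p => (1 - p.1) • q₀ p.2 + p.1 • q₁ p.2 with hG
  have hGc : Continuous G := by
    have e0 := h₀.continuous
    have e1 := h₁.continuous
    rw [hG]
    fun_prop
  have hKc : IsCompact ((Icc (0 : ℝ) 1 ×ˢ closure V) ∩ {p | G p = 0}) :=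
    (isCompact_Icc.prod hVc).inter_right (isClosed_eq hGc continuous_const)
  set S : Set X := Prod.snd '' ((Icc (0 : ℝ) 1 ×ˢ closure V) ∩ {p | G p = 0}) with hS
  have hSc : IsCompact S := hKc.image continuous_snd
  have hSV : S ⊆ V := by
    rintro x ⟨p, ⟨⟨hp1, hp2⟩, hp3⟩, rfl⟩
    by_contra hx
    refine hne p.2 ⟨hp2, ?_⟩ p.1 hp1 hp3
    rwa [hV.interior_eq]
  obtain ⟨C₁, hC₁, hSC, hCV⟩ := exists_compact_between hSc hV hSV
  obtain ⟨C₂, hC₂, h12, h2V⟩ := exists_compact_between hC₁ hV hCV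
  obtain ⟨χ, hχ0, hχ1, hχI⟩ : ∃ χ : X → ℝ, ContDiff ℝ 1 χ ∧ ((∀ x, x ∉ interior C₂ → χ x = 0) ∧
      (∀ x ∈ C₁, χ x = 1)) ∧ ∀ x, χ x ∈ Icc (0 : ℝ) 1 := by
    obtain ⟨f, hf0, hf1, hf2⟩ := exists_contMDiffMap_zero_one_of_isClosed (n := 1)
      (modelWithCornersSelf ℝ X) (s := (interior C₂)ᶜ) (t := C₁)
      isOpen_interior.isClosed_compl hC₁.isClosed
      (Set.disjoint_left.2 fun x hx hx1 => hx (h12 hx1))
    exact ⟨f, f.contMDiff.contDiff, ⟨fun x hx => hf0 hx, fun x hx => hf1 hx⟩, hf2⟩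
  set q : X → X := fun x => q₀ x + χ x • (q₁ x - q₀ x) with hq
  have hqG : ∀ x, q x = G (χ x, x) := by
    intro x
    simp only [hq, hG]
    module
  have hqC : ContDiff ℝ 1 q := h₀.add (hχ0.smul (h₁.sub h₀))
  obtain ⟨m₀, hm₀, hm⟩ := CntHom_lower (S := Icc (0 : ℝ) 1 ×ˢ (closure V \ interior C₁))
    (isCompact_Icc.prod (hVc.diff isOpen_interior)) (φ := fun p => ‖G p‖) hGc.norm.continuousOn
    (by
      rintro ⟨t, x⟩ ⟨ht, hx⟩
      refine norm_pos_iff.2 fun h0 => hx.2 (hSC ?_)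
      exact ⟨(t, x), ⟨⟨ht, hx.1⟩, h0⟩, rfl⟩)
  obtain ⟨κ, hκ, hwz⟩ := wt_eq_zero b
  have f0 : ∀ x ∈ frontier V, q₀ x ≠ 0 := by
    intro x hx
    have := hne x hx 0 ⟨le_refl _, zero_le_one⟩
    simpa using this
  have f1 : ∀ x ∈ frontier V, q₁ x ≠ 0 := by
    intro x hx
    have := hne x hx 1 ⟨zero_le_one, le_refl _⟩
    simpa using this
  obtain ⟨δ₀, hδ₀, hc₀⟩ := integral_wt_jac_eq_cnt μ b hV hb h₀ f0 r₀
  obtain ⟨δ₁, hδ₁, hc₁⟩ := integral_wt_jac_eq_cnt μ b hV hb h₁ f1 r₁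
  set δ : ℝ := min (min (δ₀ / 2) (δ₁ / 2)) (m₀ / κ) with hδd
  have hδ : 0 < δ := by
    have : 0 < m₀ / κ := div_pos hm₀ hκ
    exact lt_min (lt_min (by linarith) (by linarith)) this
  have hδ0 : δ < δ₀ := by
    have h1 : δ ≤ δ₀ / 2 := (min_le_left _ _).trans (min_le_left _ _)
    linarith
  have hδ1 : δ < δ₁ := by
    have h1 : δ ≤ δ₁ / 2 := (min_le_left _ _).trans (min_le_right _ _)
    linarith
  have hκδ : κ * δ ≤ m₀ := by
    have h1 : δ ≤ m₀ / κ := min_le_right _ _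
    calc κ * δ ≤ κ * (m₀ / κ) := mul_le_mul_of_nonneg_left h1 hκ.le
      _ = m₀ := by field_simp
  have hJc : ∀ A : X → X, ContDiff ℝ 1 A → Continuous (fun x => wt b δ (A x) * jac A x) := by
    intro A hA
    refine ((wt_continuous b δ).comp hA.continuous).mul ?_
    unfold jac
    exact ContinuousLinearMap.continuous_det.comp (hA.continuous_fderiv one_ne_zero)
  have hint : ∀ A : X → X, ContDiff ℝ 1 A →
      IntegrableOn (fun x => wt b δ (A x) * jac A x) V μ := fun A hA =>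
    ((hJc A hA).continuousOn.integrableOn_compact hVc).mono_set subset_closure
  -- outside `interior C₂`
  have hout : ∀ x, x ∉ C₂ → q x = q₀ x := by
    intro x hx
    simp only [hq]
    rw [hχ1.1 x (fun h => hx (interior_subset h)), zero_smul, add_zero]
  have hI := integral_wt_jac_congr μ b hδ hqC h₀ hC₂ hout
  have hD0 : ∀ x, x ∉ V → wt b δ (q x) * jac q x - wt b δ (q₀ x) * jac q₀ x = 0 := by
    intro x hx
    have hx2 : x ∉ C₂ := fun h => hx (h2V h)
    have e1 : q =ᶠ[𝓝 x] q₀ := by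
      filter_upwards [hC₂.isClosed.isOpen_compl.mem_nhds hx2] with z hz
      exact hout z hz
    unfold jac
    rw [e1.fderiv_eq, e1.eq_of_nhds, sub_self]
  rw [← setIntegral_eq_integral_of_forall_compl_eq_zero (s := V) hD0,
    integral_sub (hint q hqC) (hint q₀ h₀)] at hI
  have hV1 : ∫ x in V, wt b δ (q x) * jac q x ∂μ = ∫ x in V, wt b δ (q₁ x) * jac q₁ x ∂μ := by
    refine setIntegral_congr_fun hV.measurableSet ?_
    intro x hx
    show wt b δ (q x) * jac q x = wt b δ (q₁ x) * jac q₁ x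
    by_cases hx1 : x ∈ interior C₁
    · have e1 : q =ᶠ[𝓝 x] q₁ := by
        filter_upwards [isOpen_interior.mem_nhds hx1] with z hz
        simp only [hq]
        rw [hχ1.2 z (interior_subset hz), one_smul]
        abel
      unfold jac
      rw [e1.fderiv_eq, e1.eq_of_nhds]
    · have a1 : κ * δ ≤ ‖q x‖ := by
        rw [hqG x]
        exact hκδ.trans (hm (χ x, x) ⟨hχI x, subset_closure hx, hx1⟩)
      have a2 : κ * δ ≤ ‖q₁ x‖ := by
        have e2 : q₁ x = G (1, x) := by simp [hG]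
        rw [e2]
        exact hκδ.trans (hm (1, x) ⟨⟨zero_le_one, le_refl _⟩, subset_closure hx, hx1⟩)
      rw [hwz δ hδ _ a1, hwz δ hδ _ a2, zero_mul, zero_mul]
  rw [hV1, hc₁ δ hδ hδ1, hc₀ δ hδ hδ0] at hI
  have hw := integral_wt_pos μ b hδ
  have h3 : ((cnt V q₁ : ℝ) - (cnt V q₀ : ℝ)) * ∫ y, wt b δ y ∂μ = 0 := by
    rw [sub_mul]
    exact hI
  have h4 : (cnt V q₁ : ℝ) - (cnt V q₀ : ℝ) = 0 := by
    rcases mul_eq_zero.1 h3 with h | h
    · exact h
    · exact absurd h hw.ne'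
  have h5 : (cnt V q₀ : ℝ) = (cnt V q₁ : ℝ) := by linarith
  exact_mod_cast h5

end EMU
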