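import Mathlib

/-!
# MP_9aab3b_gt, part D: Brouwer degree (definitions)

`jac q x` is the Jacobian determinant. `cnt V q` is the signed number of zeros of `q` in `V`.
`RegApprox V g q`: `q` is a `C^1` map which has only non degenerate zeros in `V` and is closer to `g`
on the frontier of `V` than `‖g‖`. `deg V g` is the signed number of zeros in `V` of such a `q`.

The weight `wt b δ y = ∏ i, η (y_i / δ)` (coordinates with respect to the basis `b`, `η` a smooth bump
function on the line) is the Jacobian determinant of the map `Rm b δ`.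
-/

set_option autoImplicit false

open Set Metric MeasureTheory Topology

namespace EMU

section Defs

variable {X : Type*} [NormedAddCommGroup X] [NormedSpace ℝ X]

/-- Jacobian determinant -/
noncomputable def jac (q : X → X) (x : X) : ℝ := (fderiv ℝ q x).det

/-- `q` is a regular `C^1` approximation of `g` on the frontier of `V` -/
structure RegApprox (V : Set X) (g q : X → X) : Prop where
  smooth : ContDiff ℝ 1 q
  close : ∀ x ∈ frontier V, ‖q x - g x‖ < ‖g x‖
  reg : ∀ x ∈ V, q x = 0 → jac q x ≠ 0

/-- signed number of zeros -/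
noncomputable def cnt (V : Set X) (q : X → X) : ℤ :=
  ∑ᶠ x ∈ {x | x ∈ V ∧ q x = 0}, ((SignType.sign (jac q x) : SignType) : ℤ)

open Classical in
/-- Brouwer degree of `g` on `V` with respect to `0` -/
noncomputable def deg (V : Set X) (g : X → X) : ℤ :=
  if h : ∃ q, RegApprox V g q then cnt V h.choose else 0

/-- a smooth bump function on the line -/
noncomputable def bump1 : ContDiffBump (0 : ℝ) := ⟨1, 2, one_pos, one_lt_two⟩

/-- its primitive -/
noncomputable def prim1 (s : ℝ) : ℝ := ∫ t in (0 : ℝ)..s, bump1 t

variable {n : ℕ}

/-- the weight -/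
noncomputable def wt (b : Module.Basis (Fin n) ℝ X) (δ : ℝ) (y : X) : ℝ :=
  ∏ i, bump1 (b.repr y i / δ)

/-- a map with Jacobian determinant `wt b δ` -/
noncomputable def Rm (b : Module.Basis (Fin n) ℝ X) (δ : ℝ) (y : X) : X :=
  ∑ i, (δ * prim1 (b.repr y i / δ)) • b i

end Defs

end EMU
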