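import Pool.Agent.Lib.EMU.D.IntDet

/-!
# MP_9aab3b_gt, module D.IntCongr: the weighted integral of the Jacobian depends only on the values near infinity

PROOF. `jac_Rm`: `Rm b δ` is `C^1` (`prim1` has derivative the continuous function `bump1`,
`intervalIntegral.integral_hasDerivAt_right` / `Continuous.deriv_integral`); in the basis `b` its derivative at `y` is the
diagonal matrix with entries `bump1 (b.repr y i / δ)`, so its determinant is `wt b δ y` (`LinearMap.det_toMatrix`,
`Matrix.det_diagonal`).
`integral_wt_jac_congr`: by the chain rule `jac (Rm b δ ∘ A) x = wt b δ (A x) * jac A x` (`ContinuousLinearMap.det` of a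
composition). So it is enough to prove: if `A, B` are `C^1` and `A = B` outside the compact set `C` then
`∫ (jac A x - jac B x) = 0`. Take a `C^1` (smooth) `χ : X → ℝ` with compact support, equal to `1` on a neighbourhood of `C`
(`exists_contDiff_tsupport_subset` or a `ContDiffBump` on a large ball containing `C` : take `ball 0 R ⊇ C`, `χ = 1` on
`ball 0 R`, support in `closedBall 0 (2R)`). Then `χ • A`, `χ • B` have compact support and are `C^1`, and for every `x`
`jac (χ • A) x - jac (χ • B) x = jac A x - jac B x`: for `x ∈ ball 0 R` both functions are unchanged near `x`; for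
`x ∉ C` (open set) `A = B` near `x`, so both sides vanish. Integrate, using `integral_jac_eq_zero` and integrability
(continuous with compact support).
-/

set_option autoImplicit false

open Set Metric MeasureTheory Topology

namespace EMU

variable {X : Type*} [NormedAddCommGroup X] [NormedSpace ℝ X] [FiniteDimensional ℝ X] {n : ℕ}

private theorem IntCongr_prim_hasDerivAt (s : ℝ) : HasDerivAt prim1 (bump1 s) s := by
  have hc : Continuous (fun t : ℝ => bump1 t) := bump1.continuous
  exact intervalIntegral.integral_hasDerivAt_right (hc.intervalIntegrable _ _)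
    (hc.stronglyMeasurableAtFilter _ _) hc.continuousAt

private theorem IntCongr_contDiff_prim : ContDiff ℝ 1 prim1 := by
  rw [contDiff_one_iff_deriv]
  refine ⟨fun s => (IntCongr_prim_hasDerivAt s).differentiableAt, ?_⟩
  have : deriv prim1 = fun s => bump1 s := by
    funext s
    exact (IntCongr_prim_hasDerivAt s).deriv
  rw [this]
  exact bump1.continuous

private noncomputable def IntCongr_coord (b : Module.Basis (Fin n) ℝ X) (i : Fin n) : X →L[ℝ] ℝ :=
  LinearMap.toContinuousLinearMap (b.coord i)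

private theorem IntCongr_coord_apply (b : Module.Basis (Fin n) ℝ X) (i : Fin n) (y : X) :
    IntCongr_coord b i y = b.repr y i := rfl

theorem contDiff_Rm (b : Module.Basis (Fin n) ℝ X) (δ : ℝ) : ContDiff ℝ 1 (Rm b δ) := by
  unfold Rm
  refine ContDiff.sum fun i _ => ?_
  refine ContDiff.smul ?_ contDiff_const
  refine contDiff_const.mul (IntCongr_contDiff_prim.comp ?_)
  exact (IntCongr_coord b i).contDiff.div_const δ

private theorem IntCongr_fderiv_Rm (b : Module.Basis (Fin n) ℝ X) {δ : ℝ} (hδ : 0 < δ) (y : X) :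
    HasFDerivAt (Rm b δ)
      (∑ i, (bump1 (b.repr y i / δ)) • (IntCongr_coord b i).smulRight (b i)) y := by
  unfold Rm
  refine HasFDerivAt.fun_sum fun i _ => ?_
  have h1 : HasFDerivAt (fun z : X => b.repr z i / δ) (δ⁻¹ • IntCongr_coord b i) y := by
    have h0 : HasFDerivAt (fun z : X => δ⁻¹ * IntCongr_coord b i z)
        (δ⁻¹ • IntCongr_coord b i) y := (IntCongr_coord b i).hasFDerivAt.const_mul δ⁻¹
    refine h0.congr_of_eventuallyEq (Filter.Eventually.of_forall fun z => ?_)
    show b.repr z i / δ = δ⁻¹ * IntCongr_coord b i z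
    rw [IntCongr_coord_apply]; ring
  have h2 : HasFDerivAt (fun z : X => prim1 (b.repr z i / δ))
      ((bump1 (b.repr y i / δ)) • (δ⁻¹ • IntCongr_coord b i)) y :=
    HasDerivAt.comp_hasFDerivAt (h₂ := prim1) (f := fun z : X => b.repr z i / δ) y
      (IntCongr_prim_hasDerivAt (b.repr y i / δ)) h1
  have h3 := (h2.const_mul δ).smul_const (b i)
  refine h3.congr_fderiv ?_
  ext z
  simp only [ContinuousLinearMap.smulRight_apply, _root_.smul_apply, smul_eq_mul]
  rw [smul_smul]
  congr 1
  field_simp

theorem jac_Rm (b : Module.Basis (Fin n) ℝ X) {δ : ℝ} (hδ : 0 < δ) (y : X) :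
    jac (Rm b δ) y = wt b δ y := by
  unfold jac wt
  rw [(IntCongr_fderiv_Rm b hδ y).fderiv]
  set L : X →L[ℝ] X := ∑ i, (bump1 (b.repr y i / δ)) • (IntCongr_coord b i).smulRight (b i) with hL
  have h1 : L.det = LinearMap.det (L : X →ₗ[ℝ] X) := rfl
  rw [h1, ← LinearMap.det_toMatrix b]
  have h2 : LinearMap.toMatrix b b (L : X →ₗ[ℝ] X)
      = Matrix.diagonal (fun i => bump1 (b.repr y i / δ)) := by
    ext i j
    rw [LinearMap.toMatrix_apply]
    have h3 : (L : X →ₗ[ℝ] X) (b j) = ∑ k, (bump1 (b.repr y k / δ)) •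
        ((b.repr (b j) k) • b k) := by
      rw [hL]
      simp [IntCongr_coord_apply]
    rw [h3]
    rw [map_sum]
    rw [Finsupp.coe_finsetSum, Finset.sum_apply]
    rw [Finset.sum_eq_single j]
    · simp only [map_smul, Finsupp.smul_apply, smul_eq_mul, Module.Basis.repr_self]
      rw [Finsupp.single_eq_same, one_mul]
      by_cases hij : i = j
      · subst hij
        rw [Matrix.diagonal_apply_eq, Finsupp.single_eq_same, mul_one]
      · rw [Matrix.diagonal_apply_ne _ hij, Finsupp.single_eq_of_ne hij, mul_zero]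
    · intro k _ hk
      have : b.repr (b j) k = 0 := by
        rw [Module.Basis.repr_self, Finsupp.single_eq_of_ne hk]
      rw [this]
      simp
    · intro h; exact absurd (Finset.mem_univ j) h
  rw [h2, Matrix.det_diagonal]

private theorem IntCongr_jac_cont {h : X → X} (hh : ContDiff ℝ 1 h) :
    Continuous (fun x => jac h x) := by
  unfold jac
  exact ContinuousLinearMap.continuous_det.comp (hh.continuous_fderiv one_ne_zero)

private theorem IntCongr_jac_supp [Nontrivial X] {h : X → X} (hs : HasCompactSupport h) :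
    HasCompactSupport (fun x => jac h x) := by
  have h1 : HasCompactSupport (fderiv ℝ h) := hs.fderiv ℝ
  have h0 : ContinuousLinearMap.det (0 : X →L[ℝ] X) = 0 := by
    have : ContinuousLinearMap.det (0 : X →L[ℝ] X) = LinearMap.det (0 : X →ₗ[ℝ] X) := rfl
    rw [this]
    exact LinearMap.det_zero''
  exact h1.comp_left h0

private theorem IntCongr_congr [Nontrivial X] [MeasurableSpace X] [BorelSpace X] (μ : Measure X)
    [μ.IsAddHaarMeasure] {A B : X → X}
    (hA : ContDiff ℝ 1 A) (hB : ContDiff ℝ 1 B) {C : Set X} (hC : IsCompact C)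
    (hAB : ∀ x, x ∉ C → A x = B x) :
    ∫ x, (jac A x - jac B x) ∂μ = 0 := by
  obtain ⟨R0, hR0⟩ := hC.isBounded.subset_ball (0 : X)
  set R : ℝ := max R0 1 with hR
  have hRpos : 0 < R := lt_of_lt_of_le one_pos (le_max_right _ _)
  have hCR : C ⊆ ball 0 R := hR0.trans (ball_subset_ball (le_max_left _ _))
  let χ : ContDiffBump (0 : X) := ⟨R, 2 * R, hRpos, by linarith⟩
  have hχ1 : ∀ x ∈ ball (0 : X) R, χ x = 1 := fun x hx =>
    χ.one_of_mem_closedBall (ball_subset_closedBall hx)
  have hχs : HasCompactSupport (fun x => χ x) := χ.hasCompactSupport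
  have hh : ∀ F : X → X, ContDiff ℝ 1 F → ContDiff ℝ 1 (fun x => χ x • F x) := fun F hF =>
    (χ.contDiff (n := 1)).smul hF
  have hs : ∀ F : X → X, HasCompactSupport (fun x => χ x • F x) := fun F =>
    hχs.smul_right
  have hpt : ∀ x, jac A x - jac B x
      = jac (fun x => χ x • A x) x - jac (fun x => χ x • B x) x := by
    intro x
    by_cases hx : x ∈ C
    · have hloc : ∀ F : X → X, jac (fun x => χ x • F x) x = jac F x := by
        intro F
        unfold jac
        have : (fun x => χ x • F x) =ᶠ[𝓝 x] F := by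
          filter_upwards [isOpen_ball.mem_nhds (hCR hx)] with z hz
          rw [hχ1 z hz, one_smul]
        rw [this.fderiv_eq]
      rw [hloc A, hloc B]
    · have hn : ∀ᶠ z in 𝓝 x, z ∉ C := hC.isClosed.isOpen_compl.mem_nhds hx
      have e1 : A =ᶠ[𝓝 x] B := by
        filter_upwards [hn] with z hz
        exact hAB z hz
      have e2 : (fun x => χ x • A x) =ᶠ[𝓝 x] (fun x => χ x • B x) := by
        filter_upwards [hn] with z hz
        rw [hAB z hz]
      unfold jac
      rw [e1.fderiv_eq, e2.fderiv_eq]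
      ring
  have hint : ∀ F : X → X, ContDiff ℝ 1 F →
      Integrable (fun x => jac (fun x => χ x • F x) x) μ := fun F hF =>
    (IntCongr_jac_cont (hh F hF)).integrable_of_hasCompactSupport (IntCongr_jac_supp (hs F))
  calc ∫ x, (jac A x - jac B x) ∂μ
      = ∫ x, (jac (fun x => χ x • A x) x - jac (fun x => χ x • B x) x) ∂μ :=
        integral_congr_ae (Filter.Eventually.of_forall hpt)
    _ = ∫ x, jac (fun x => χ x • A x) x ∂μ - ∫ x, jac (fun x => χ x • B x) x ∂μ :=
        integral_sub (hint A hA) (hint B hB)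
    _ = 0 := by
        rw [integral_jac_eq_zero μ (hh A hA) (hs A), integral_jac_eq_zero μ (hh B hB) (hs B),
          sub_zero]

private theorem IntCongr_chain (b : Module.Basis (Fin n) ℝ X) {δ : ℝ} (hδ : 0 < δ) {A : X → X}
    (hA : ContDiff ℝ 1 A) (x : X) :
    jac (Rm b δ ∘ A) x = wt b δ (A x) * jac A x := by
  have h1 : DifferentiableAt ℝ A x := (hA.differentiable one_ne_zero) x
  have h2 : DifferentiableAt ℝ (Rm b δ) (A x) :=
    ((contDiff_Rm b δ).differentiable one_ne_zero) (A x)
  unfold jac
  rw [fderiv_comp x h2 h1]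
  have h3 : (((fderiv ℝ (Rm b δ) (A x)).comp (fderiv ℝ A x)).det)
      = (fderiv ℝ (Rm b δ) (A x)).det * (fderiv ℝ A x).det := by
    have e : ∀ L : X →L[ℝ] X, L.det = LinearMap.det (L : X →ₗ[ℝ] X) := fun L => rfl
    rw [e, e, e]
    have : ((((fderiv ℝ (Rm b δ) (A x)).comp (fderiv ℝ A x)) : X →L[ℝ] X) : X →ₗ[ℝ] X)
        = (((fderiv ℝ (Rm b δ) (A x)) : X →ₗ[ℝ] X)).comp ((fderiv ℝ A x : X →L[ℝ] X) : X →ₗ[ℝ] X) :=
      rfl
    rw [this, LinearMap.det_comp]
  rw [h3]
  have h4 := jac_Rm b hδ (A x)
  unfold jac at h4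
  rw [h4]

theorem integral_wt_jac_congr [Nontrivial X] [MeasurableSpace X] [BorelSpace X] (μ : Measure X)
    [μ.IsAddHaarMeasure] (b : Module.Basis (Fin n) ℝ X) {δ : ℝ} (hδ : 0 < δ) {A B : X → X}
    (hA : ContDiff ℝ 1 A) (hB : ContDiff ℝ 1 B) {C : Set X} (hC : IsCompact C)
    (hAB : ∀ x, x ∉ C → A x = B x) :
    ∫ x, (wt b δ (A x) * jac A x - wt b δ (B x) * jac B x) ∂μ = 0 := by
  have h1 := IntCongr_congr μ ((contDiff_Rm b δ).comp hA) ((contDiff_Rm b δ).comp hB) hC
    (fun x hx => by
      show Rm b δ (A x) = Rm b δ (B x)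
      rw [hAB x hx])
  rw [← h1]
  refine integral_congr_ae (Filter.Eventually.of_forall fun x => ?_)
  show wt b δ (A x) * jac A x - wt b δ (B x) * jac B x
    = jac (Rm b δ ∘ A) x - jac (Rm b δ ∘ B) x
  rw [IntCongr_chain b hδ hA, IntCongr_chain b hδ hB]

end EMU
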