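import Pool.Agent.Lib.EMU.D.Defs

/-!
# MP_9aab3b_gt, module D.IntDet: the integral of the Jacobian determinant of a compactly supported map

PROOF. Copy and adapt `Pool/Agent/Lib/Brouwer/NoRet.lean` (or `Brouwer/Basic.lean`), which contain almost
everything (the polynomial `t ↦ det (1 + t A)`, injectivity, change of variables, interpolation).
1. `h` is `C^1` with compact support: `‖fderiv ℝ h x‖ ≤ L` for all `x` (continuous, compact support), so `h` is
   `L`-Lipschitz. Choose `R` with `tsupport h ⊆ ball 0 R`, put `B = ball 0 R`. For `0 ≤ t`, `t L < 1` put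
   `φ x = x + t • h x`. `φ` is injective on `X` (`‖φ x - φ y‖ ≥ (1 - t L) ‖x - y‖`), `φ x = x` for `x ∉ B`.
2. `φ '' B = B`: if `x ∈ B` and `φ x = y ∉ B` then `φ y = y = φ x`, so `x = y`, contradiction; hence `φ '' B ⊆ B`.
   `φ '' B` is open (`HasStrictFDerivAt.map_nhds_eq_of_surj`, `det (1 + t D h) ≠ 0`), and `closure (φ '' B) ∩ B ⊆ φ '' B`
   (`φ '' closedBall` is compact, and the points of the sphere are fixed); `B` is preconnected and `φ '' B` meets `B`
   (`IsPreconnected.subset_of_closure_inter_subset`).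
3. `integral_image_eq_integral_abs_det_fderiv_smul`: `∫ x in B, det (1 + t • D h x) = μ B` (the determinant is positive for
   `t L < 1`).
4. `det (1 + t • D h x)` is a polynomial in `t` of degree at most `n = finrank`, with coefficients continuous in `x` (they are
   linear combinations of its values at `n + 1` values of `t`); the integral is a polynomial in `t` which is constant on
   `[0, 1/L)`, hence constant, hence its coefficient of `t^n`, which is `∫ x in B, det (D h x)`, vanishes since `0 < n`.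
   (The coefficient of `t^n` of `det (1 + t A)` is `det A`: `det (1 + t A) = t^n det (t⁻¹ + A)` and let `t → ∞`, or
   `Matrix.det` of `X • A + 1` : `Polynomial.coeff_det_X_add_C_card` .)
5. Outside `B`, `fderiv ℝ h x = 0`, whose determinant is `0` since `0 < n` (`LinearMap.det_zero'`/`det_zero`), so the integral
   over `X` is the integral over `B` (`setIntegral_eq_integral_of_forall_compl_eq_zero`).
-/

set_option autoImplicit false

open Set Metric MeasureTheory Topology

namespace EMU

variable {X : Type*} [NormedAddCommGroup X] [NormedSpace ℝ X] [FiniteDimensional ℝ X] [Nontrivial X]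

omit [Nontrivial X] in
open Polynomial in
private lemma id_poly (A : X →L[ℝ] X) : ∃ P : Polynomial ℝ, P.natDegree ≤ Module.finrank ℝ X ∧
    (∀ t : ℝ, (ContinuousLinearMap.id ℝ X + t • A).det = P.eval t) ∧
    P.coeff (Module.finrank ℝ X) = A.det := by
  classical
  let b := Module.finBasis ℝ X
  let M := LinearMap.toMatrix b b (A : X →ₗ[ℝ] X)
  refine ⟨Matrix.det ((Polynomial.X : Polynomial ℝ) • M.map C + (1 : Matrix _ _ ℝ).map C), ?_, fun t => ?_, ?_⟩
  · have h := natDegree_det_X_add_C_le M (1 : Matrix _ _ ℝ)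
    rwa [Fintype.card_fin] at h
  · have h1 : (ContinuousLinearMap.id ℝ X + t • A).det =
        LinearMap.det (LinearMap.id + t • (A : X →ₗ[ℝ] X)) := rfl
    rw [h1, ← LinearMap.det_toMatrix b]
    have h2 : LinearMap.toMatrix b b (LinearMap.id + t • (A : X →ₗ[ℝ] X)) = 1 + t • M := by
      rw [map_add, map_smul, LinearMap.toMatrix_id]
    rw [h2, ← Polynomial.coe_evalRingHom, RingHom.map_det]
    congr 1
    ext i j
    simp only [RingHom.mapMatrix_apply, Matrix.map_apply, Matrix.add_apply, Matrix.smul_apply,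
      smul_eq_mul, coe_evalRingHom, eval_add, eval_mul, eval_X, eval_C]
    ring
  · have h1 := coeff_det_X_add_C_card M (1 : Matrix _ _ ℝ)
    rw [Fintype.card_fin] at h1
    rw [h1]
    exact LinearMap.det_toMatrix b (A : X →ₗ[ℝ] X)

omit [Nontrivial X] in
private lemma id_pos {A : X →L[ℝ] X} (hA : ‖A‖ < 1) :
    0 < (ContinuousLinearMap.id ℝ X + A).det := by
  by_contra hcon
  rw [not_lt] at hcon
  have hcont : Continuous fun s : ℝ => (ContinuousLinearMap.id ℝ X + s • A).det :=
    ContinuousLinearMap.continuous_det.comp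
      (continuous_const.add (continuous_id.smul continuous_const))
  have h0 : (ContinuousLinearMap.id ℝ X + (0 : ℝ) • A).det = 1 := by
    rw [zero_smul, add_zero]
    exact LinearMap.det_id
  have h1 : (ContinuousLinearMap.id ℝ X + (1 : ℝ) • A).det ≤ 0 := by
    rw [one_smul]; exact hcon
  have h2 : (0 : ℝ) ∈ Icc ((ContinuousLinearMap.id ℝ X + (1 : ℝ) • A).det)
      ((ContinuousLinearMap.id ℝ X + (0 : ℝ) • A).det) := by
    rw [h0]
    exact ⟨h1, zero_le_one⟩
  obtain ⟨s, hs, hs0⟩ := intermediate_value_Icc' (zero_le_one' ℝ) hcont.continuousOn h2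
  have hs0' : LinearMap.det ((ContinuousLinearMap.id ℝ X + s • A : X →L[ℝ] X) : X →ₗ[ℝ] X) = 0 :=
    hs0
  have hker := LinearMap.bot_lt_ker_of_det_eq_zero hs0'
  obtain ⟨x, hx, hx0⟩ := Submodule.exists_mem_ne_zero_of_ne_bot hker.ne'
  have h3 : x + s • A x = 0 := hx
  have h4 : x = -(s • A x) := eq_neg_of_add_eq_zero_left h3
  have h5 : ‖x‖ ≤ ‖A‖ * ‖x‖ := by
    calc ‖x‖ = ‖s • A x‖ := by
          conv_lhs => rw [h4]
          rw [norm_neg]
      _ = |s| * ‖A x‖ := by rw [norm_smul, Real.norm_eq_abs]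
      _ ≤ 1 * (‖A‖ * ‖x‖) := by
        refine mul_le_mul ?_ (A.le_opNorm x) (norm_nonneg _) zero_le_one
        rw [abs_of_nonneg hs.1]; exact hs.2
      _ = ‖A‖ * ‖x‖ := one_mul _
  have h6 : 0 < ‖x‖ := norm_pos_iff.2 hx0
  nlinarith

omit [Nontrivial X] in
/-- the integral of `det (1 + t D h)` for small `t` -/
private lemma id_small [MeasurableSpace X] [BorelSpace X] (μ : Measure X) [μ.IsAddHaarMeasure]
    {h : X → X} (hh : ContDiff ℝ 1 h) {R L : ℝ} (hR : 0 < R) (h0 : ∀ x, x ∉ ball (0 : X) R → h x = 0)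
    (hL : ∀ x, ‖fderiv ℝ h x‖ ≤ L) {t : ℝ} (ht0 : 0 ≤ t) (htL : t * L < 1) :
    ∫ x in ball (0 : X) R, (ContinuousLinearMap.id ℝ X + t • fderiv ℝ h x).det ∂μ =
      μ.real (ball (0 : X) R) := by
  have hstrict : ∀ x : X, HasStrictFDerivAt h (fderiv ℝ h x) x := fun x =>
    hh.contDiffAt.hasStrictFDerivAt one_ne_zero
  have hLip : ∀ x y : X, ‖h y - h x‖ ≤ L * ‖y - x‖ := by
    intro x y
    refine convex_univ.norm_image_sub_le_of_norm_hasFDerivWithin_le
      (f' := fderiv ℝ h) (fun z _ => ?_) (fun z _ => hL z) (mem_univ x) (mem_univ y)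
    exact (hstrict z).hasFDerivAt.hasFDerivWithinAt
  have hder : ∀ x : X, HasStrictFDerivAt (fun x => x + t • h x)
      (ContinuousLinearMap.id ℝ X + t • fderiv ℝ h x) x := fun x =>
    (hasStrictFDerivAt_id x).add ((hstrict x).const_smul t)
  have hsmall : ∀ x : X, ‖t • fderiv ℝ h x‖ < 1 := by
    intro x
    rw [norm_smul, Real.norm_eq_abs, abs_of_nonneg ht0]
    exact (mul_le_mul_of_nonneg_left (hL x) ht0).trans_lt htL
  have hinj : Function.Injective (fun x => x + t • h x) := by
    intro x y hxy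
    have h2 : y - x = -(t • (h y - h x)) := by
      have h3 : x + t • h x = y + t • h y := hxy
      rw [smul_sub]
      linear_combination (norm := module) (-1 : ℝ) • h3
    have h3 : ‖y - x‖ ≤ t * (L * ‖y - x‖) := by
      calc ‖y - x‖ = ‖t • (h y - h x)‖ := by rw [h2, norm_neg]
        _ = t * ‖h y - h x‖ := by rw [norm_smul, Real.norm_eq_abs, abs_of_nonneg ht0]
        _ ≤ t * (L * ‖y - x‖) := mul_le_mul_of_nonneg_left (hLip x y) ht0
    by_contra hne
    have h4 : 0 < ‖y - x‖ := norm_pos_iff.2 (sub_ne_zero.2 (Ne.symm hne))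
    nlinarith
  have hfix : ∀ x : X, x ∉ ball (0 : X) R → x + t • h x = x := by
    intro x hx
    rw [h0 x hx, smul_zero, add_zero]
  have hsub : (fun x => x + t • h x) '' ball (0 : X) R ⊆ ball (0 : X) R := by
    rintro _ ⟨x, hx, rfl⟩
    by_contra hn
    have h2 : (fun x => x + t • h x) (x + t • h x) = (fun x => x + t • h x) x := hfix _ hn
    have h3 : x + t • h x = x := hinj h2
    apply hn
    show x + t • h x ∈ ball (0 : X) R
    rw [h3]
    exact hx
  have hopen : IsOpen ((fun x => x + t • h x) '' ball (0 : X) R) := by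
    rw [isOpen_iff_mem_nhds]
    rintro _ ⟨x, hx, rfl⟩
    have hdet := id_pos (hsmall x)
    have hsurj : (ContinuousLinearMap.id ℝ X + t • fderiv ℝ h x).range = ⊤ := by
      have h2 : IsUnit (LinearMap.det
          ((ContinuousLinearMap.id ℝ X + t • fderiv ℝ h x : X →L[ℝ] X) : X →ₗ[ℝ] X)) :=
        isUnit_iff_ne_zero.2 hdet.ne'
      have h3 := (LinearMap.isUnit_iff_isUnit_det _).2 h2
      exact (LinearMap.isUnit_iff_range_eq_top _).1 h3
    have h2 := (hder x).map_nhds_eq_of_surj hsurj
    show _ ∈ nhds (x + t • h x)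
    have h3 : (fun x => x + t • h x) '' ball (0 : X) R ∈
        Filter.map (fun x => x + t • h x) (nhds x) :=
      Filter.image_mem_map (isOpen_ball.mem_nhds hx)
    rw [h2] at h3
    exact h3
  have hcts : ContinuousOn (fun x => x + t • h x) (closedBall (0 : X) R) := fun x _ =>
    (hder x).hasFDerivAt.continuousAt.continuousWithinAt
  have himg : (fun x => x + t • h x) '' ball (0 : X) R = ball (0 : X) R := by
    refine hsub.antisymm ?_
    refine (convex_ball (0 : X) R).isPreconnected.subset_of_closure_inter_subset hopen ?_ ?_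
    · refine ⟨0 + t • h 0, ?_, ⟨0, mem_ball_self hR, rfl⟩⟩
      exact hsub ⟨0, mem_ball_self hR, rfl⟩
    · rintro y ⟨hy, hy1⟩
      have h2 : IsClosed ((fun x => x + t • h x) '' closedBall (0 : X) R) :=
        ((isCompact_closedBall (0 : X) R).image_of_continuousOn hcts).isClosed
      have h3 : closure ((fun x => x + t • h x) '' ball (0 : X) R) ⊆
          (fun x => x + t • h x) '' closedBall (0 : X) R :=
        closure_minimal (image_mono ball_subset_closedBall) h2
      obtain ⟨x, hx, rfl⟩ := h3 hy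
      by_cases hxb : x ∈ ball (0 : X) R
      · exact ⟨x, hxb, rfl⟩
      · exfalso
        have h4 : x + t • h x ∈ ball (0 : X) R := hy1
        rw [hfix x hxb] at h4
        exact hxb h4
  have hcv := integral_image_eq_integral_abs_det_fderiv_smul μ (measurableSet_ball (x := (0 : X)) (ε := R))
    (f := fun x => x + t • h x) (f' := fun x => ContinuousLinearMap.id ℝ X + t • fderiv ℝ h x)
    (fun x _ => (hder x).hasFDerivAt.hasFDerivWithinAt)
    hinj.injOn (fun _ => (1 : ℝ))
  rw [himg] at hcv
  have h2 : ∫ x in ball (0 : X) R, (1 : ℝ) ∂μ = μ.real (ball (0 : X) R) := by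
    rw [setIntegral_const, smul_eq_mul, mul_one]
  rw [h2] at hcv
  rw [hcv]
  refine setIntegral_congr_fun measurableSet_ball fun x _ => ?_
  show _ = |(ContinuousLinearMap.id ℝ X + t • fderiv ℝ h x).det| • (1 : ℝ)
  rw [abs_of_pos (id_pos (hsmall x)), smul_eq_mul, mul_one]

open Polynomial in
theorem integral_jac_eq_zero [MeasurableSpace X] [BorelSpace X] (μ : Measure X) [μ.IsAddHaarMeasure]
    {h : X → X} (hh : ContDiff ℝ 1 h) (hs : HasCompactSupport h) :
    ∫ x, jac h x ∂μ = 0 := by
  classical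
  have hcf : Continuous (fderiv ℝ h) := hh.continuous_fderiv one_ne_zero
  obtain ⟨L, hL⟩ := hcf.bounded_above_of_compact_support (hs.fderiv ℝ)
  have hL0 : 0 ≤ L := (norm_nonneg _).trans (hL 0)
  obtain ⟨R0, hR0⟩ := hs.isCompact.isBounded.subset_ball (0 : X)
  set R : ℝ := max R0 1 with hRdef
  have hR : 0 < R := lt_of_lt_of_le one_pos (le_max_right _ _)
  have hsupp : tsupport h ⊆ ball (0 : X) R := hR0.trans (ball_subset_ball (le_max_left _ _))
  have h0 : ∀ x, x ∉ ball (0 : X) R → h x = 0 := fun x hx =>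
    image_eq_zero_of_notMem_tsupport fun h' => hx (hsupp h')
  have hpos : 0 < Module.finrank ℝ X := Module.finrank_pos
  -- interpolation
  set n := Module.finrank ℝ X with hn
  set v : ℕ → ℝ := fun i => (i : ℝ) / ((n + 1 : ℕ) * (L + 2)) with hv
  have hden : 0 < ((n + 1 : ℕ) : ℝ) * (L + 2) := by positivity
  have hvinj : Set.InjOn v (Finset.range (n + 1)) := by
    intro i _ j _ hij
    have h2 : (i : ℝ) / ((n + 1 : ℕ) * (L + 2)) = (j : ℝ) / ((n + 1 : ℕ) * (L + 2)) := hij
    rw [div_left_inj' hden.ne'] at h2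
    exact_mod_cast h2
  have hvr : ∀ i ∈ Finset.range (n + 1), 0 ≤ v i ∧ v i * L < 1 := by
    intro i hi
    have hi' : (i : ℝ) ≤ ((n + 1 : ℕ) : ℝ) := by
      exact_mod_cast (Finset.mem_range.1 hi).le
    have hvi : v i ≤ 1 / (L + 2) := by
      rw [hv]
      show (i : ℝ) / ((n + 1 : ℕ) * (L + 2)) ≤ 1 / (L + 2)
      rw [div_le_div_iff₀ hden (by positivity)]
      nlinarith
    have h2 : 0 ≤ v i := by rw [hv]; positivity
    refine ⟨h2, ?_⟩
    calc v i * L ≤ 1 / (L + 2) * L := mul_le_mul_of_nonneg_right hvi hL0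
      _ = L / (L + 2) := by ring
      _ < 1 := by
        rw [div_lt_one (by positivity)]
        linarith
  have hpt : ∀ x : X, jac h x =
      ∑ i ∈ Finset.range (n + 1), (Lagrange.basis (Finset.range (n + 1)) v i).coeff n *
        (ContinuousLinearMap.id ℝ X + v i • fderiv ℝ h x).det := by
    intro x
    obtain ⟨P, hP, hPe, hPc⟩ := id_poly (fderiv ℝ h x)
    have hdeg : P.degree < ((Finset.range (n + 1)).card : WithBot ℕ) := by
      rw [Finset.card_range]
      refine lt_of_le_of_lt degree_le_natDegree ?_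
      exact_mod_cast Nat.lt_succ_of_le hP
    have h2 := Lagrange.eq_interpolate hvinj hdeg
    rw [jac, ← hPc]
    conv_lhs => rw [h2]
    rw [Lagrange.interpolate_apply, finsetSum_coeff]
    refine Finset.sum_congr rfl fun i _ => ?_
    rw [coeff_C_mul, hPe (v i), mul_comm]
  have hK : IsCompact (closedBall (0 : X) R) := isCompact_closedBall 0 R
  have hint : ∀ t : ℝ, IntegrableOn
      (fun x => (ContinuousLinearMap.id ℝ X + t • fderiv ℝ h x).det) (ball (0 : X) R) μ := by
    intro t
    have h2 : ContinuousOn (fun x => (ContinuousLinearMap.id ℝ X + t • fderiv ℝ h x).det)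
        (closedBall (0 : X) R) :=
      ContinuousLinearMap.continuous_det.comp_continuousOn
        (continuousOn_const.add (hcf.continuousOn.const_smul t))
    exact (h2.integrableOn_compact hK).mono_set ball_subset_closedBall
  have hball : ∫ x in ball (0 : X) R, jac h x ∂μ = 0 := by
    rw [setIntegral_congr_fun measurableSet_ball fun x _ => hpt x,
      integral_finsetSum _ fun i _ => (hint (v i)).const_mul _]
    have h2 : ∀ i ∈ Finset.range (n + 1),
        ∫ x in ball (0 : X) R, (Lagrange.basis (Finset.range (n + 1)) v i).coeff n *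
          (ContinuousLinearMap.id ℝ X + v i • fderiv ℝ h x).det ∂μ =
        (Lagrange.basis (Finset.range (n + 1)) v i).coeff n * μ.real (ball (0 : X) R) := by
      intro i hi
      obtain ⟨h3, h4⟩ := hvr i hi
      rw [integral_const_mul, id_small μ hh hR h0 hL h3 h4]
    rw [Finset.sum_congr rfl h2, ← Finset.sum_mul, ← finsetSum_coeff,
      Lagrange.sum_basis hvinj ⟨0, Finset.mem_range.2 (Nat.succ_pos n)⟩, coeff_one, if_neg hpos.ne', zero_mul]
  rw [← hball]
  refine (setIntegral_eq_integral_of_forall_compl_eq_zero fun x hx => ?_).symm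
  have h2 : fderiv ℝ h x = 0 := fderiv_of_notMem_tsupport ℝ fun h' => hx (hsupp h')
  rw [jac, h2]
  show LinearMap.det (0 : X →ₗ[ℝ] X) = 0
  rw [LinearMap.det_zero, zero_pow hpos.ne']

end EMU
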