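import Pool.Agent.Lib.EMU.D.Basic

/-!
# MP_9aab3b_gt, module D.Nondeg: the degree near a non degenerate zero

PROOF. `L` is invertible, so `‖L v‖ ≥ c ‖v‖` with `c > 0`. By differentiability there is `r₀ ≤ R`, `0 < r₀`, such that
`‖g x - L (x - x₀)‖ ≤ (c / 2) ‖x - x₀‖` for `‖x - x₀‖ ≤ r₀`. So the only zero of `g` in `closedBall x₀ r₀` is `x₀`. For
`0 < r ≤ r₀` put `V = ball x₀ r`; on the sphere `‖g x - L (x - x₀)‖ < ‖L (x - x₀)‖`, so by `deg_rouche`
`deg V g = deg V (fun x => L (x - x₀))`, and `fun x => L (x - x₀)` is a regular approximation of itself (`RegApprox`), whose only zero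
is `x₀`, with `jac = L.det`: `cnt` is the sign (`deg_eq_cnt`, `finsum_mem_singleton`).
-/

set_option autoImplicit false

open Set Metric MeasureTheory Topology

namespace EMU

variable {X : Type*} [NormedAddCommGroup X] [NormedSpace ℝ X] [FiniteDimensional ℝ X] [Nontrivial X]

theorem deg_nondeg {g : X → X} {x₀ : X} {R : ℝ} (hR : 0 < R) (hg : ContinuousOn g (closedBall x₀ R))
    {L : X →L[ℝ] X} (hL : HasFDerivAt g L x₀) (hdet : L.det ≠ 0) (h0 : g x₀ = 0) :
    ∃ r₀ : ℝ, 0 < r₀ ∧ r₀ ≤ R ∧ (∀ x ∈ closedBall x₀ r₀, g x = 0 → x = x₀) ∧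
      ∀ r : ℝ, 0 < r → r ≤ r₀ → deg (ball x₀ r) g = ((SignType.sign L.det : SignType) : ℤ) := by
  let E := L.toContinuousLinearEquivOfDetNeZero hdet
  have hE : ∀ v, E v = L v := fun v => L.toContinuousLinearEquivOfDetNeZero_apply hdet v
  set M : ℝ := ‖(E.symm : X →L[ℝ] X)‖ + 1 with hM
  have hM0 : 0 < M := by positivity
  have hlow : ∀ v, ‖v‖ ≤ M * ‖L v‖ := by
    intro v
    have h1 : ‖(E.symm : X →L[ℝ] X) (L v)‖ ≤ ‖(E.symm : X →L[ℝ] X)‖ * ‖L v‖ :=
      (E.symm : X →L[ℝ] X).le_opNorm _
    have h2 : (E.symm : X →L[ℝ] X) (L v) = v := by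
      rw [← hE v]
      exact E.symm_apply_apply v
    rw [h2] at h1
    refine h1.trans (mul_le_mul_of_nonneg_right ?_ (norm_nonneg _))
    rw [hM]
    linarith
  set c : ℝ := 1 / M with hc
  have hc0 : 0 < c := by positivity
  have hlow' : ∀ v, c * ‖v‖ ≤ ‖L v‖ := by
    intro v
    rw [hc, one_div, inv_mul_le_iff₀ hM0]
    exact hlow v
  have hev := hL.isLittleO.def (half_pos hc0)
  rw [Metric.nhds_basis_closedBall.eventually_iff] at hev
  obtain ⟨δ, hδ, hev⟩ := hev
  have hest : ∀ x ∈ closedBall x₀ (min R δ), ‖g x - L (x - x₀)‖ ≤ c / 2 * ‖x - x₀‖ := by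
    intro x hx
    have h1 := hev (closedBall_subset_closedBall (min_le_right R δ) hx)
    rw [h0, sub_zero] at h1
    exact h1
  refine ⟨min R δ, lt_min hR hδ, min_le_left _ _, ?_, ?_⟩
  · intro x hx hgx
    have h1 := hest x hx
    rw [hgx, zero_sub, norm_neg] at h1
    have h2 := hlow' (x - x₀)
    have h3 : ‖x - x₀‖ ≤ 0 := by
      by_contra h4
      push Not at h4
      nlinarith
    exact sub_eq_zero.1 (norm_le_zero_iff.1 h3)
  · intro r hr hrr
    have hsub : closedBall x₀ r ⊆ closedBall x₀ (min R δ) := closedBall_subset_closedBall hrr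
    have hq : ∀ x, HasFDerivAt (fun x => L (x - x₀)) L x := by
      intro x
      have h1 : HasFDerivAt (fun x : X => x - x₀) (ContinuousLinearMap.id ℝ X) x :=
        (hasFDerivAt_id x).sub_const x₀
      have h2 := L.hasFDerivAt.comp x h1
      rwa [ContinuousLinearMap.comp_id] at h2
    have hfr : ∀ x ∈ frontier (ball x₀ r), x ∈ closedBall x₀ r ∧ ‖x - x₀‖ = r := by
      intro x hx
      rw [frontier_ball x₀ hr.ne'] at hx
      exact ⟨sphere_subset_closedBall hx, by rw [← dist_eq_norm]; exact hx⟩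
    have hpos : ∀ x ∈ frontier (ball x₀ r), 0 < ‖L (x - x₀)‖ := by
      intro x hx
      refine lt_of_lt_of_le ?_ (hlow' (x - x₀))
      rw [(hfr x hx).2]
      positivity
    have hcl : closure (ball x₀ r) ⊆ closedBall x₀ R :=
      closure_ball_subset_closedBall.trans (closedBall_subset_closedBall (hrr.trans (min_le_left _ _)))
    have h1 : deg (ball x₀ r) g = deg (ball x₀ r) (fun x => L (x - x₀)) := by
      refine deg_rouche isOpen_ball isBounded_ball ?_ (hg.mono hcl) ?_
      · exact (L.continuous.comp (continuous_id.sub continuous_const)).continuousOn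
      · intro x hx
        obtain ⟨h2, h3⟩ := hfr x hx
        have h4 := hest x (hsub h2)
        have h5 := hlow' (x - x₀)
        rw [h3] at h4 h5
        have : c / 2 * r < c * r := by nlinarith [mul_pos hc0 hr]
        exact lt_of_le_of_lt h4 (lt_of_lt_of_le this h5)
    have hjac : ∀ x, jac (fun x => L (x - x₀)) x = L.det := by
      intro x
      rw [jac, (hq x).fderiv]
    have hreg : RegApprox (ball x₀ r) (fun x => L (x - x₀)) (fun x => L (x - x₀)) := by
      refine ⟨L.contDiff.comp (contDiff_id.sub contDiff_const), fun x hx => ?_, fun x _ _ => ?_⟩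
      · rw [sub_self, norm_zero]
        exact hpos x hx
      · rw [hjac]
        exact hdet
    rw [h1, deg_eq_cnt isOpen_ball isBounded_ball hreg, cnt]
    have hset : {x | x ∈ ball x₀ r ∧ (fun x => L (x - x₀)) x = 0} = {x₀} := by
      ext x
      constructor
      · rintro ⟨-, h2⟩
        have h3 := hlow (x - x₀)
        simp only at h2
        rw [h2, norm_zero, mul_zero] at h3
        exact sub_eq_zero.1 (norm_le_zero_iff.1 h3)
      · intro h2
        rw [mem_singleton_iff] at h2
        subst h2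
        exact ⟨mem_ball_self hr, by simp⟩
    rw [hset, finsum_mem_singleton, hjac]

end EMU
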